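import Pool.Agent.MP_6bef34_co.H28.State

/-! The first state when the far tokens are recorded and claimed at once. -/

namespace Pool.Agent.MP_6bef34_co.H28

open Finset
open Pool.Agent.MP_6bef34_co.H7

variable {ν : Type} {P : Par ν}

/-- the first state: tokens `nw + Z0`, the far tokens `Z0` are claimed -/
def St.start (Z0 nw : Multiset Site) (n : ν) : St ν :=
  ⟨{(-1, 1)}, {(0, 0)}, ∅, ∅, e0, nw + Z0, Z0, fun _ => n, fun _ => 0⟩

theorem St.start_c {Z0 : Multiset Site} (h0 : ∀ y ∈ Z0, y.1 ≤ -2) (nw : Multiset Site) (n : ν)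
    {y : Site} (hy : -1 ≤ y.1) : (St.start Z0 nw n).c y = 0 :=
  Multiset.count_eq_zero.2 fun a => by
    have := h0 y a
    omega

theorem St.start_z {Z0 : Multiset Site} (h0 : ∀ y ∈ Z0, y.1 ≤ -2) (nw : Multiset Site) (n : ν)
    {y : Site} (hy : -1 ≤ y.1) : (St.start Z0 nw n).z y = nw.count y := by
  have : Z0.count y = 0 := St.start_c h0 nw n hy
  simp only [St.z, St.start, Multiset.count_add, this, add_zero]

theorem Inv.start {Z0 nw : Multiset Site} {n : ν} (h0 : ∀ y ∈ Z0, y.1 ≤ -2) (hM : 1 ≤ P.M)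
    (hn : P.ok (nw + Z0) (0, 0) n) :
    Inv P (St.start Z0 nw n) ∧ (St.start Z0 nw n).g = 2 - nw.card := by
  have hU : ∀ u, (St.start Z0 nw n).U u → (St.start Z0 nw n).c u = 0 := fun u a =>
    St.start_c h0 nw n (by
      have : ¬ u.1 < 0 := fun b => a.1 (Or.inl b)
      omega)
  have hN : ∀ a k, (St.start Z0 nw n).U (a + d k) → (St.start Z0 nw n).c a = 0 := fun a k b =>
    St.start_c h0 nw n (by
      have b1 : ¬ (a + d k).1 < 0 := fun c => b.1 (Or.inl c)
      have b2 := abs_le.1 (d_bound k).1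
      rw [Prod.fst_add] at b1
      omega)
  refine ⟨⟨Geo.init, fun y => ?_, fun y a => ?_, fun y a => ?_, fun r a _ => ?_,
    fun u a => by simp [hU u a], fun u a _ => by simp [hU u a], fun u a _ => hU u a,
    fun a k _ a2 _ a4 _ _ => by simp [hN a k a2, hU _ a2, hU _ a4],
    fun a k _ a2 _ _ _ _ => by simp [hN a k a2, hU _ a2],
    fun r _ _ k _ a2 _ _ => by simp [hN r _ a2],
    fun r a => ⟨1, ?_⟩, fun v a => absurd a (notMem_empty _), fun v a => absurd a (notMem_empty _),
    fun v a => absurd a (notMem_empty _)⟩, ?_⟩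
  · simp only [St.c, St.z, St.start, Multiset.count_add]
    omega
  · rw [mem_singleton.1 a]
    exact ⟨by simpa using hM, by simpa using hM⟩
  · rw [mem_singleton.1 a]
    exact ⟨by simp; omega, by simp; omega⟩
  · rw [mem_singleton.1 a]
    exact hn
  · rw [mem_singleton.1 a]
    exact mem_insert_self _ _
  · simp only [St.g, St.start, led_init, Multiset.card_add]
    push_cast
    ring

end Pool.Agent.MP_6bef34_co.H28
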