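import Pool.Agent.MP_6bef34_co.H88.Core

/-! The ways to pay for a corner or to get past it. -/

namespace Pool.Agent.MP_6bef34_co.H88

open Finset
open Pool.Agent.MP_6bef34_co.H7 (Site d Wall Box need)
open Pool.Agent.MP_6bef34_co.H28
open Pool.Agent.MP_6bef34_co.H50

variable {Lo : Pt → Finset Pt → Prop} {N : ℤ} {s t : St Nd} {b : Site} {i : ZMod 6} {p c : Nd}

namespace Pay

theorem x_a (b : Site) (i : ZMod 6) : b + d (i + 1) + d (i + 5) = b + d i := by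
  rw [add_assoc, ← ix14, H7.d_add4, add_sub_cancel_right]

theorem x_b (b : Site) (i : ZMod 6) : b + d (i + 1) + d (i + 4) = b := by
  rw [add_assoc, ← ix13, H7.d_add3, add_zero]

theorem x_y (b : Site) (i : ZMod 6) : b + d (i + 1) + d (i + 3) = b + d (i + 2) := by
  rw [add_assoc, ← ix12, H7.d_add, ix11]

theorem y_x (b : Site) (i : ZMod 6) : b + d (i + 2) + d i = b + d (i + 1) := by
  rw [add_assoc, add_comm (d (i + 2)), H7.d_add]

theorem y_b (b : Site) (i : ZMod 6) : b + d (i + 2) + d (i + 5) = b := by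
  rw [add_assoc, ← ix23, H7.d_add3, add_zero]

theorem boxx (G : Gm Lo N) (h : Inv (par Lo N) s) (he : s.e = (b, i)) (hv : b ∉ s.V)
    (j : ZMod 6) : Box (par Lo N).M (b + d j) := box1 (box_real G h (head_R h he) hv) j

theorem price1 (h : Inv (par Lo N) s) (he : s.e = (b, i)) (hx : s.U (b + d (i + 1))) :
    need s.De (b + d (i + 1)) + s.c (b + d (i + 1)) ≤ 4 :=
  (price h hx (k := i + 5) (by rw [x_a]; exact head_wall h he)).1

/-- absorption with three claims costs at most one -/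
theorem at3 (G : Gm Lo N) (h : Inv (par Lo N) s) (he : s.e = (b, i)) (hv : b ∉ s.V)
    (hx : s.U (b + d (i + 1))) (h3 : 3 ≤ s.z (b + d (i + 1))) :
    ∃ t, AT Lo N s t b i ∧ t.c (b + d (i + 1)) = 3 ∧ (∀ u, u ≠ b + d (i + 1) → t.c u = s.c u) ∧
      s.g - 1 ≤ t.g := by
  have a2 := h.u2 _ hx
  obtain ⟨t, a, b1, b2, b3⟩ := at_own h he hx (boxx G h he hv _) 3 (by omega) h3 (by omega)
  have := price1 h he hx
  exact ⟨t, a, b1, b2, by push_cast at b3; omega⟩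

/-- absorption without claims -/
theorem at0 (G : Gm Lo N) (h : Inv (par Lo N) s) (he : s.e = (b, i)) (hv : b ∉ s.V)
    (hx : s.U (b + d (i + 1))) :
    ∃ t, AT Lo N s t b i ∧ t.g = s.g - need s.De (b + d (i + 1)) := by
  have a2 := h.u2 _ hx
  obtain ⟨t, a, -, -, b3⟩ := at_own h he hx (boxx G h he hv _) _ le_rfl (h.cz _) (by omega)
  exact ⟨t, a, by omega⟩

theorem rich (h : AT Lo N s t b i) (hv : b ∉ s.V) (hg : 2 ≤ t.g) : Nx Lo N s :=
  ⟨t, good_c3 h.inv h.e (h.V ▸ hv) ⟨h.e3, Or.inl hg⟩, h.mu⟩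

end Pay

open Pay

theorem gain (G : Gm Lo N) (h : Inv (par Lo N) s) (he : s.e = (b, i)) (hv : b ∉ s.V)
    (hx : s.U (b + d (i + 1))) (hw : Wall s.De (b + d (i + 2))) (hg : -2 ≤ s.g) :
    Nx Lo N s := by
  obtain ⟨t, a, e⟩ := at0 G h he hv hx
  refine rich a hv ?_
  have w3 : Wall s.De (b + d (i + 1) + d (i + 3)) := by rwa [x_y]
  have w4 : ¬ Wall s.De (b + d (i + 1) + d (i + 4)) := by
    rw [x_b]
    exact h.geo.free _ (head_R h he)
  have w5 : Wall s.De (b + d (i + 1) + d (i + 5)) := by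
    rw [x_a]
    exact head_wall h he
  rw [H7.need_eq _ _ i] at e
  simp only [H7.pr, w3, w4, w5, if_true, if_false] at e
  split_ifs at e <;> omega

theorem lackR (G : Gm Lo N) (h : Inv (par Lo N) s) (he : s.e = (b, i)) (hv : b ∉ s.V)
    (hx : s.U (b + d (i + 1))) (h3 : 3 ≤ s.z (b + d (i + 1))) (hr : b + d (i + 2) ∈ s.R)
    (hg : 0 ≤ s.g) : Nx Lo N s := by
  obtain ⟨t, a, -, -, e⟩ := at3 G h he hv hx h3
  exact ⟨t, good_arr a.inv a.e ⟨by rw [ix11, a.R]; exact hr, Or.inl (by omega)⟩, a.mu⟩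

theorem lackG (G : Gm Lo N) (h : Inv (par Lo N) s) (he : s.e = (b, i)) (hv : b ∉ s.V)
    (hx : s.U (b + d (i + 1))) (h0 : K0 s.De (b + d (i + 1))) (h3 : 3 ≤ s.z (b + d (i + 1)))
    (h2 : s.U (b + d (i + 2))) (hn : ¬ K0 (insert (b + d (i + 1)) s.De) (b + d (i + 2)))
    (hg : 0 ≤ s.g) : Nx Lo N s := by
  obtain ⟨t, a, -, -, e⟩ := at3 G h he hv hx h3
  have hv' : b ∉ t.V := a.V ▸ hv
  have n21 : b + d (i + 2) ≠ b + d (i + 1) := fun e =>
    (by decide : ∀ i : ZMod 6, i + 2 ≠ i + 1) i (H7.add_d_inj e)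
  obtain ⟨t', a', e'⟩ := at0 G a.inv a.e hv' (by rw [ix11]; exact a.U.2 ⟨n21, h2⟩)
  refine (rich a' hv' ?_).of_le a.mu.le
  rw [ix11, a.De] at e'
  have w1 : ¬ Wall (insert (b + d (i + 1)) s.De) (b + d (i + 2) + d (i + 1)) := by
    rw [add_right_comm, H7.wall_insert_of_ne (H7.add_d_ne _ _)]
    exact fun w => (by decide : ∀ i : ZMod 6, i + 2 ≠ i + 5) i
      (h0 _ _ w (by rw [x_a]; exact head_wall h he))
  have w5 : ¬ Wall (insert (b + d (i + 1)) s.De) (b + d (i + 2) + d (i + 5)) := by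
    rw [y_b, H7.wall_insert_of_ne (H7.add_d_ne _ _).symm]
    exact h.geo.free _ (head_R h he)
  have := H7.need_le_neg (De := insert (b + d (i + 1)) s.De) (x := b + d (i + 2)) (j := i)
    (by rw [y_x]; exact H7.wall_insert.2 (Or.inl rfl)) w1 w5 (by
      by_contra w
      push Not at w
      exact hn (k0_of w1 w.1 w.2.1 w.2.2 w5))
  omega

namespace Pay

/-- the corner is passed and `m ≤ 1` of its tokens are claimed -/
theorem pass1 (G : Gm Lo N) (h : Inv (par Lo N) s) (he : s.e = (b, i)) (hv : b ∉ s.V)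
    (hx : s.U (b + d (i + 1))) (hc : s.c (b + d (i + 1)) = 0) (h3 : 3 ≤ s.z (b + d (i + 1)))
    (hr : RcOK s b i) {m : ℕ} (hm : m ≤ 1)
    (hH : (node s b).nB b ≤ 2 ∨ ¬ s.U (b + d (i + 3)))
    (hk : m = 0 ∨ (par Lo N).Cok (s.nd b) b (b + d (i + 1)) ∨ ¬ s.U (b + d (i + 4))) :
    Inv (par Lo N) (s.pass.claim (b + d (i + 1)) m) ∧
      (s.pass.claim (b + d (i + 1)) m).g = s.g + 2 + m ∧
      (s.pass.claim (b + d (i + 1)) m).mu = s.mu + 1 ∧
      (s.pass.claim (b + d (i + 1)) m).e = (b + d (i + 1), i + 5) ∧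
      b + d (i + 1) ∈ (s.pass.claim (b + d (i + 1)) m).V := by
  have a := h.pass he hv hx (boxx G h he hv _) m (hr hv) (by rw [hc]; omega) hH fun _ _ => by
    rw [hc]
    rcases hk with a | a
    · exact Or.inl (by omega)
    · exact Or.inr ⟨by omega, a⟩
  refine ⟨a.1, a.2.1, a.2.2, ?_, ?_⟩
  · simp only [St.claim_e, St.pass_e, he, H7.corner, ix_m]
  · simp only [St.claim_V, St.pass_V, he, H7.corner, mem_insert_self]

end Pay

theorem passR (G : Gm Lo N) (h : Inv (par Lo N) s) (he : s.e = (b, i)) (hv : b ∉ s.V)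
    (hx : s.U (b + d (i + 1))) (hc : s.c (b + d (i + 1)) = 0) (h3 : 3 ≤ s.z (b + d (i + 1)))
    (ho : b + d (i + 1) + d i ∈ s.R) (hr : RcOK s b i) {m : ℕ} (hm : m ≤ 1)
    (hH : (node s b).nB b ≤ 2 ∨ ¬ s.U (b + d (i + 3)))
    (hk : m = 0 ∨ (par Lo N).Cok (s.nd b) b (b + d (i + 1)) ∨ ¬ s.U (b + d (i + 4)))
    (hg : -3 ≤ s.g + m) : Nx Lo N s := by
  obtain ⟨a1, a2, a3, a4, -⟩ := pass1 G h he hv hx hc h3 hr hm hH hk
  refine ⟨_, good_arr a1 a4 ⟨?_, Or.inl (by omega)⟩, by omega⟩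
  rw [ix51]
  exact mem_insert_of_mem ho

theorem passTo (G : Gm Lo N) (h : Inv (par Lo N) s) (he : s.e = (b, i)) (hv : b ∉ s.V)
    (hx : s.U (b + d (i + 1))) (hc : s.c (b + d (i + 1)) = 0) (h3 : 3 ≤ s.z (b + d (i + 1)))
    (ho : s.U (b + d (i + 1) + d i)) (h1 : K1 s.De (b + d (i + 1) + d i)) (hr : RcOK s b i)
    {m : ℕ} (hm : m ≤ 1) (hH : (node s b).nB b ≤ 2 ∨ ¬ s.U (b + d (i + 3)))
    (hk : m = 0 ∨ (par Lo N).Cok (s.nd b) b (b + d (i + 1)) ∨ ¬ s.U (b + d (i + 4)))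
    (hT : p.T = s.Z) (hE : p.Ext Lo c) (h2 : p.cost c ≤ 2) (ha : c.Adj (b + d (i + 1) + d i))
    (hb : ¬ c.Blk (b + d (i + 1) + d i)) (hg : 0 ≤ s.g + m)
    (hf : s.c (b + d (i + 1) + d i) = 0 ∨ 1 ≤ s.g + m) : Nx Lo N s := by
  obtain ⟨a1, a2, a3, a4, a5⟩ := pass1 G h he hv hx hc h3 hr hm hH hk
  obtain ⟨nw, b1, b2, b3⟩ := ext_add a1 hT hE
  have n1 : b + d (i + 1) + d i ≠ b + d (i + 1) := H7.add_d_ne _ _
  have hU : ((s.pass.claim (b + d (i + 1)) m).addZ nw).U (b + d (i + 1) + d i) :=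
    St.U_pass.2 ⟨by rw [he]; exact n1, ho⟩
  refine (land_any G b2 a4 (by rw [ix51]) hU h1 (fun a => absurd a5 a) hE.1 b1.symm ha hb
    (by omega) (hf.imp (fun a => ?_) fun a => ?_)).of_le (by rw [St.addZ_mu]; omega)
  · rw [St.addZ_c, St.c_claim_ne _ _ n1]
    exact a
  · have := fl_ge b2 (b + d (i + 1) + d i)
    omega

theorem debt2 (G : Gm Lo N) (h : Inv (par Lo N) s) (he : s.e = (b, i)) (hv : b ∉ s.V)
    (hx : s.U (b + d (i + 1))) (h3 : 3 ≤ s.z (b + d (i + 1))) (h2 : s.U (b + d (i + 2)))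
    (h3' : 3 ≤ s.z (b + d (i + 2))) (hr : b + d (i + 3) ∈ s.R) (hg : 0 ≤ s.g) :
    Nx Lo N s := by
  obtain ⟨t, a, -, -, e⟩ := at3 G h he hv hx h3
  have hv' : b ∉ t.V := a.V ▸ hv
  have n21 : b + d (i + 2) ≠ b + d (i + 1) := fun e =>
    (by decide : ∀ i : ZMod 6, i + 2 ≠ i + 1) i (H7.add_d_inj e)
  have hU : t.U (b + d (i + 1 + 1)) := by rw [ix11]; exact a.U.2 ⟨n21, h2⟩
  obtain ⟨t', a', c3, hc, e'⟩ := at3 G a.inv a.e hv' hU (by rw [ix11, a.z]; exact h3')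
  have hr' : b + d (i + 1 + 1 + 1) ∈ t.R := by
    rw [ix11, ix12, a.R]
    exact hr
  refine ⟨t', good_arr a'.inv a'.e ⟨a'.R ▸ hr', Or.inr ⟨by omega, fun v u1 u2 => ?_, c3.le,
    fun u1 k1 => ?_⟩⟩, a.mu.trans a'.mu⟩
  · rw [hc _ fun e => hU.2 (e ▸ hr')]
    refine a.inv.rc _ hr' (a'.V ▸ v) (i + 1 + 1 + 4) ?_ ?_ ?_ ?_
    · rw [x_b]
      exact head_R a.inv a.e
    · rw [ix41, x_a]
      exact hU
    · rw [ix42]
      exact (a'.U.1 u1).2
    · rw [ix43]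
      exact (a'.U.1 u2).2
  · rw [hc _ (H7.add_d_ne _ _)]
    exact a.inv.clean hU (a'.U.1 u1).2 (a'.De ▸ k1)

theorem crossTo (G : Gm Lo N) (h : Inv (par Lo N) s) (he : s.e = (b, i))
    (hx : s.U (b + d (i + 1))) (h0 : K0 s.De (b + d (i + 1))) (hr : RcOK s b i)
    (hT : p.T = s.Z) (hE : p.Ext Lo c) (ho : c.On (b + d (i + 1)))
    (hF : c.F4 (b + d (i + 1)) (s.g + 2 - p.cost c)) : Nx Lo N s := by
  obtain ⟨nw, b1, b2, b3⟩ := ext_add h hT hE
  exact land4 (s := s.addZ nw) G b2 he rfl (ix51 i) hx h0 hr hE.1 ho b1.symm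
    (Or.inl (hF.mono (by omega)))

namespace Pay

/-- the tokens of `c` enter, the tip is absorbed with three or four claims -/
theorem absT (G : Gm Lo N) (h : Inv (par Lo N) s) (he : s.e = (b, i)) (hv : b ∉ s.V)
    (hx : s.U (b + d (i + 1))) (h0 : K0 s.De (b + d (i + 1))) (hT : p.T = s.Z) (hE : p.Ext Lo c)
    (h3 : 3 ≤ c.cnt (b + d (i + 1))) :
    ∃ nw t, (s.addZ nw).Z = c.T ∧ AT Lo N (s.addZ nw) t b i ∧
      s.g - p.cost c - c.pay (b + d (i + 1)) ≤ t.g := by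
  obtain ⟨nw, b1, b2, b3⟩ := ext_add h hT hE
  have z : (s.addZ nw).z (b + d (i + 1)) = c.cnt (b + d (i + 1)) := by rw [St.z, b1, Nd.cnt]
  have c0 : (s.addZ nw).c (b + d (i + 1)) = 0 := b2.u0 _ hx h0
  have pr := price1 b2 he hx
  have hB := boxx G h he hv (i + 1)
  by_cases h4 : 4 ≤ c.cnt (b + d (i + 1))
  · obtain ⟨t, a, -, -, e⟩ := at_own b2 he hx hB 4 (by omega) (by omega) le_rfl
    refine ⟨nw, t, b1, a, ?_⟩
    rw [Nd.pay, if_pos h4]
    push_cast at e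
    omega
  · obtain ⟨t, a, -, -, e⟩ := at_own b2 he hx hB 3 (by omega) (by omega) (by omega)
    refine ⟨nw, t, b1, a, ?_⟩
    rw [Nd.pay, if_neg h4]
    push_cast at e
    omega

end Pay

theorem absLand4 (G : Gm Lo N) (h : Inv (par Lo N) s) (he : s.e = (b, i)) (hv : b ∉ s.V)
    (hx : s.U (b + d (i + 1))) (h0 : K0 s.De (b + d (i + 1))) (h2 : s.U (b + d (i + 2)))
    (h0' : K0 (insert (b + d (i + 1)) s.De) (b + d (i + 2)))
    (hT : p.T = s.Z) (hE : p.Ext Lo c) (ho : c.On (b + d (i + 2)))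
    (h3 : 3 ≤ c.cnt (b + d (i + 1)))
    (hG : c.G4 (b + d (i + 2)) i (K0 (insert (b + d (i + 1)) s.De) (b + d (i + 2) + d (i + 1)))
      (fl s b + 2 - p.cost c - c.pay (b + d (i + 1)))) : Nx Lo N s := by
  obtain ⟨nw, t, b1, a, e⟩ := absT G h he hv hx h0 hT hE h3
  have n21 : b + d (i + 2) ≠ b + d (i + 1) := fun e =>
    (by decide : ∀ i : ZMod 6, i + 2 ≠ i + 1) i (H7.add_d_inj e)
  have hU : t.U (b + d (i + 2)) := a.U.2 ⟨n21, h2⟩
  have e1 : t.e.1 = b := by rw [a.e]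
  have cb : t.c b = s.c b := a.cb
  have zb : s.z b ≤ t.z b := by
    rw [a.z, St.z_addZ]
    omega
  have cz := h.cz b
  have k := a.inv.claimB (by rw [e1, a.V]; exact hv) (s.z b - s.c b) (by rw [e1]; omega)
    (Or.inl (by rw [a.e, H7.corner, ix11]; exact hU.2))
  rw [e1] at k
  refine (land4 (j := i) G k a.e (by rw [ix11]) rfl hU (a.De ▸ h0') (fun _ _ _ u => absurd u a.e3)
    hE.1 ho (b1.symm.trans a.Z.symm) ?_).of_le a.mu.le
  rw [St.claim_De, a.De, St.g_claim]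
  refine hG.mono ?_
  rw [fl]
  omega

theorem absLand3 (G : Gm Lo N) (h : Inv (par Lo N) s) (he : s.e = (b, i)) (hv : b ∉ s.V)
    (hx : s.U (b + d (i + 1))) (h0 : K0 s.De (b + d (i + 1))) (h2 : s.U (b + d (i + 2)))
    (h0' : K0 (insert (b + d (i + 1)) s.De) (b + d (i + 2))) (hE3 : ¬ s.U (b + d (i + 3)))
    (hT : p.T = s.Z) (hE : p.Ext Lo c) (ho : c.On (b + d (i + 2)))
    (h3 : 3 ≤ c.cnt (b + d (i + 1)))
    (hG : c.G3 (b + d (i + 2)) (b + d (i + 2) + d (i + 1)) 0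
      (s.g + 2 - p.cost c - c.pay (b + d (i + 1)))) : Nx Lo N s := by
  obtain ⟨nw, t, b1, a, e⟩ := absT G h he hv hx h0 hT hE h3
  have n21 : b + d (i + 2) ≠ b + d (i + 1) := fun e =>
    (by decide : ∀ i : ZMod 6, i + 2 ≠ i + 1) i (H7.add_d_inj e)
  exact (land3t G a.inv a.e (by rw [ix11]) (a.U.2 ⟨n21, h2⟩) (a.De ▸ h0')
    (fun u => hE3 (by rw [← ix12]; exact (a.U.1 u).2)) hE.1 ho (b1.symm.trans a.Z.symm)
    (hG.mono (by omega))).of_le a.mu.le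

namespace Pay

theorem cnt_ext (hE : p.Ext Lo c) (u : Site) : p.cnt u ≤ c.cnt u :=
  Multiset.count_le_of_le u hE.2

end Pay

theorem retest (G : Gm Lo N) (h : Inv (par Lo N) s) (he : s.e = (b, i)) (hv : b ∉ s.V)
    (hg : 0 ≤ s.g) (hx : s.U (b + d (i + 1))) (h0 : K0 s.De (b + d (i + 1)))
    (hn : (node s b).NC3 (b + d (i + 1))) (h2 : s.U (b + d (i + 2)))
    (h0' : K0 (insert (b + d (i + 1)) s.De) (b + d (i + 2)))
    (hb : ¬ (node s b).Blk (b + d (i + 2))) (hr : RcOK s b i)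
    (hs : ¬ s.U (b + d (i + 3)) ∨ (node s b).Side (b + d (i + 2)) ∨ 3 ≤ s.z (b + d (i + 2))) :
    Nx Lo N s := by
  obtain ⟨k1, k2⟩ := node_ok h (head_R h he) hv
  have h3 := Nd.Blk.three k1.2 hn.1
  rcases hs with hs | hs
  · obtain ⟨c, hE, a | a⟩ := retest3_game G k1 k2 hn hb (b + d (i + 2) + d (i + 1))
    · exact crossTo G h he hx h0 hr rfl hE a.1 (a.2.mono (by omega))
    · exact absLand3 G h he hv hx h0 h2 h0' hs rfl hE a.1 (h3.trans (cnt_ext hE _))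
        (a.2.mono (by omega))
  · obtain ⟨c, hE, a | a⟩ := retest4_game G k1 k2 hn hb hs
      (K0 (insert (b + d (i + 1)) s.De) (b + d (i + 2) + d (i + 1)))
    · exact crossTo G h he hx h0 hr rfl hE a.1 (a.2.mono (by omega))
    · have := fl_ge h b
      exact absLand4 G h he hv hx h0 h2 h0' rfl hE a.1 (h3.trans (cnt_ext hE _))
        (a.2.mono (by omega))

theorem xrule (G : Gm Lo N) (h : Inv (par Lo N) s) (he : s.e = (b, i)) (hv : b ∉ s.V)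
    (hg : 0 ≤ s.g) (hf : 1 ≤ fl s b) (hr : RcOK s b i) (hx : s.U (b + d (i + 1)))
    (h0 : K0 s.De (b + d (i + 1))) (hn : (node s b).NC3 (b + d (i + 1)))
    (h2 : s.U (b + d (i + 2))) (h0' : K0 (insert (b + d (i + 1)) s.De) (b + d (i + 2)))
    (hn' : (node s b).NC3 (b + d (i + 2))) (hz : s.z (b + d (i + 2) + d (i + 1)) = 0)
    (hG : ¬ (node s b).Gate b (i + 1)) (h1 : (node s b).H1 b) : Nx Lo N s := by
  obtain ⟨k1, k2⟩ := node_ok h (head_R h he) hv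
  have h3 := Nd.Blk.three k1.2 hn.1
  obtain ⟨c, hE, a | a⟩ := x_game G k1 k2 h1 hn hn' hz hG
  · exact crossTo G h he hx h0 hr rfl hE a.1 (a.2.mono (by omega))
  · refine absLand4 G h he hv hx h0 h2 h0' rfl hE a.1 (h3.trans (cnt_ext hE _))
      (Or.inl (a.2.mono ?_))
    rw [Nd.pay]
    split_ifs <;> omega

theorem heavy (G : Gm Lo N) (h : Inv (par Lo N) s) (he : s.e = (b, i)) (hv : b ∉ s.V)
    (hg : 0 ≤ s.g) (hx : s.U (b + d (i + 1))) (h0 : K0 s.De (b + d (i + 1)))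
    (h3 : 3 ≤ s.z (b + d (i + 1))) (h2 : s.U (b + d (i + 2)))
    (h0' : K0 (insert (b + d (i + 1)) s.De) (b + d (i + 2)))
    (hb : ¬ (node s b).Blk (b + d (i + 2))) (h3' : 3 ≤ s.z (b + d (i + 2))) : Nx Lo N s := by
  obtain ⟨k1, k2⟩ := node_ok h (head_R h he) hv
  obtain ⟨c, hE, a1, a2⟩ := heavy_game G k1 (k2.adj (i + 2)) hb h3'
  have := fl_ge h b
  refine absLand4 G h he hv hx h0 h2 h0' rfl hE a1 (h3.trans (cnt_ext hE _))
    (Or.inl (a2.mono ?_))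
  rw [Nd.pay]
  split_ifs <;> omega

end Pool.Agent.MP_6bef34_co.H88
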