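import Pool.Agent.MP_6bef34_co.H7.Top

/-! Labels, claims and reserves on top of the contour; the elementary operations keep them. -/

namespace Pool.Agent.MP_6bef34_co.H28

open Finset
open Pool.Agent.MP_6bef34_co.H7

/-- at most one wall neighbour -/
def K0 (De : Finset Site) (u : Site) : Prop :=
  ∀ i j, Wall De (u + d i) → Wall De (u + d j) → i = j

/-- the wall neighbours lie in two adjacent positions -/
def K1 (De : Finset Site) (u : Site) : Prop := ∃ i, ∀ j, Wall De (u + d j) → j = i ∨ j = i + 1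

theorem K0.anti {De De' : Finset Site} {u : Site} (h : K0 De' u) (hs : De ⊆ De') : K0 De u :=
  fun i j a b => h i j (a.mono hs) (b.mono hs)

theorem K1.anti {De De' : Finset Site} {u : Site} (h : K1 De' u) (hs : De ⊆ De') : K1 De u :=
  let ⟨i, a⟩ := h
  ⟨i, fun j b => a j (b.mono hs)⟩

theorem K0.k1 {De : Finset Site} {u : Site} (h : K0 De u) : K1 De u := by
  by_cases a : ∃ i, Wall De (u + d i)
  · obtain ⟨i, a⟩ := a
    exact ⟨i, fun j b => Or.inl (h j i b a)⟩
  · exact ⟨0, fun j b => absurd ⟨j, b⟩ a⟩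

/-- a neighbour of a new wall site had at most one wall neighbour, or has now too many -/
theorem K1.k0 {De : Finset Site} {u : Site} {k : ZMod 6} (hx : ¬ Wall De (u + d k))
    (h : K1 (insert (u + d k) De) u) : K0 De u := by
  obtain ⟨m, a⟩ := h
  intro i j hi hj
  have a1 := a i (hi.mono (subset_insert _ _))
  have a2 := a j (hj.mono (subset_insert _ _))
  have a3 := a k (wall_insert.2 (Or.inl rfl))
  have b1 : i ≠ k := fun e => hx (e ▸ hi)
  have b2 : j ≠ k := fun e => hx (e ▸ hj)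
  rcases a1 with rfl | rfl <;> rcases a2 with a2 | a2 <;> rcases a3 with a3 | a3 <;>
    first | exact a2.symm | exact absurd a3.symm b1 | exact absurd (a2.trans a3.symm) b2

/-- a wall neighbour between two free ones -/
theorem K1.k0' {De : Finset Site} {u : Site} {k : ZMod 6} (h : K1 De u) (hk : Wall De (u + d k))
    (h1 : ¬ Wall De (u + d (k + 1))) (h5 : ¬ Wall De (u + d (k + 5))) : K0 De u := by
  obtain ⟨m, a⟩ := h
  have key : ∀ j, Wall De (u + d j) → j = k := fun j hj => by
    rcases a k hk with rfl | rfl <;> rcases a j hj with rfl | rfl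
    · rfl
    · exact absurd hj h1
    · exact absurd (by rwa [(by decide : ∀ i : ZMod 6, i + 1 + 5 = i) j]) h5
    · rfl
  exact fun i j hi hj => (key i hi).trans (key j hj).symm

theorem k0_of {De : Finset Site} {u : Site} {k : ZMod 6} (h1 : ¬ Wall De (u + d (k + 1)))
    (h2 : ¬ Wall De (u + d (k + 2))) (h3 : ¬ Wall De (u + d (k + 3)))
    (h4 : ¬ Wall De (u + d (k + 4))) (h5 : ¬ Wall De (u + d (k + 5))) : K0 De u := by
  have key : ∀ j, Wall De (u + d j) → j = k := fun j hj => by
    rcases six_cases k j with rfl | rfl | rfl | rfl | rfl | rfl <;> first | rfl | contradiction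
  exact fun i j hi hj => (key i hi).trans (key j hj).symm

/-- too many wall neighbours: the site is free of charge -/
theorem need_le_of_not_k1 {De : Finset Site} {u : Site} (h : ¬ K1 De u) : need De u ≤ 0 := by
  have a : ∃ j, Wall De (u + d j) := by
    by_contra a
    exact h ⟨0, fun j b => absurd ⟨j, b⟩ a⟩
  obtain ⟨j, a⟩ := a
  by_cases b : Wall De (u + d (j + 2)) ∨ Wall De (u + d (j + 3)) ∨ Wall De (u + d (j + 4))
  · exact need_le_zero a b
  push Not at b
  by_cases b1 : Wall De (u + d (j + 1))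
  · by_cases b5 : Wall De (u + d (j + 5))
    · exact need_le_zero b5 (Or.inl (by rwa [(by decide : ∀ i : ZMod 6, i + 5 + 2 = i + 1) j]))
    · refine absurd ⟨j, fun k c => ?_⟩ h
      rcases six_cases j k with rfl | rfl | rfl | rfl | rfl | rfl <;> tauto
  · refine absurd ⟨j + 5, fun k c => ?_⟩ h
    rw [(by decide : ∀ i : ZMod 6, i + 5 + 1 = i) j]
    rcases six_cases j k with rfl | rfl | rfl | rfl | rfl | rfl <;> tauto

/-- at least two wall neighbours -/
theorem need_le_of_not_k0 {De : Finset Site} {u : Site} (h : ¬ K0 De u) : need De u ≤ 2 := by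
  by_cases a : K1 De u
  · obtain ⟨m, a⟩ := a
    simp only [K0, not_forall] at h
    obtain ⟨i, j, hi, hj, e⟩ := h
    rcases a i hi with rfl | rfl <;> rcases a j hj with rfl | rfl
    · exact absurd rfl e
    · exact need_le_two hi hj
    · exact need_le_two hj hi
    · exact absurd rfl e
  · exact (need_le_of_not_k1 a).trans (by norm_num)

theorem k1_iff {De : Finset Site} {u : Site} : K1 De u ↔ 0 < need De u := by
  refine ⟨fun ⟨i, a⟩ => ?_, fun a => by_contra fun b => absurd (need_le_of_not_k1 b) (not_le.2 a)⟩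
  have b2 : ¬ Wall De (u + d (i + 2)) := fun b =>
    (by decide : ∀ i : ZMod 6, ¬ (i + 2 = i ∨ i + 2 = i + 1)) i (a _ b)
  have b3 : ¬ Wall De (u + d (i + 3)) := fun b =>
    (by decide : ∀ i : ZMod 6, ¬ (i + 3 = i ∨ i + 3 = i + 1)) i (a _ b)
  have b4 : ¬ Wall De (u + d (i + 4)) := fun b =>
    (by decide : ∀ i : ZMod 6, ¬ (i + 4 = i ∨ i + 4 = i + 1)) i (a _ b)
  have b5 : ¬ Wall De (u + d (i + 5)) := fun b =>
    (by decide : ∀ i : ZMod 6, ¬ (i + 5 = i ∨ i + 5 = i + 1)) i (a _ b)
  rw [need_eq De u i]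
  simp only [pr, b2, b3, b4, b5, if_false]
  split_ifs <;> omega

theorem k0_iff {De : Finset Site} {u : Site} : K0 De u ↔ 4 ≤ need De u := by
  refine ⟨fun a => ?_, fun a => by_contra fun b => by
    have := need_le_of_not_k0 b
    omega⟩
  obtain ⟨i, b⟩ : ∃ i, ∀ j, Wall De (u + d j) → j = i := by
    by_cases c : ∃ i, Wall De (u + d i)
    · obtain ⟨i, c⟩ := c
      exact ⟨i, fun j e => a j i e c⟩
    · exact ⟨0, fun j e => absurd ⟨j, e⟩ c⟩
  have b1 : ¬ Wall De (u + d (i + 1)) := fun c => (by decide : ∀ i : ZMod 6, i + 1 ≠ i) i (b _ c)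
  have b2 : ¬ Wall De (u + d (i + 2)) := fun c => (by decide : ∀ i : ZMod 6, i + 2 ≠ i) i (b _ c)
  have b3 : ¬ Wall De (u + d (i + 3)) := fun c => (by decide : ∀ i : ZMod 6, i + 3 ≠ i) i (b _ c)
  have b4 : ¬ Wall De (u + d (i + 4)) := fun c => (by decide : ∀ i : ZMod 6, i + 4 ≠ i) i (b _ c)
  have b5 : ¬ Wall De (u + d (i + 5)) := fun c => (by decide : ∀ i : ZMod 6, i + 5 ≠ i) i (b _ c)
  rw [need_eq De u i]
  simp only [pr, b1, b2, b3, b4, b5, if_false]
  split_ifs <;> omega

/-- what the labels have to know about the nodes -/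
structure Par (ν : Type) where
  M : ℤ
  ok : Multiset Site → Site → ν → Prop
  mono : ∀ {Z Z' : Multiset Site} {r : Site} {n : ν}, Z ≤ Z' → ok Z r n → ok Z' r n
  H : ν → Site → Prop
  Cok : ν → Site → Site → Prop

/-- wall, right sites, virtual right sites, walked darts, head, tokens, claims, nodes, entrances -/
structure St (ν : Type) where
  De : Finset Site
  R : Finset Site
  V : Finset Site
  O : Finset Dart
  e : Dart
  Z : Multiset Site
  C : Multiset Site
  nd : Site → ν
  vj : Site → ZMod 6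

variable {ν : Type} {P : Par ν} {s : St ν}

namespace St

/-- undecided -/
def U (s : St ν) (x : Site) : Prop := ¬ Wall s.De x ∧ x ∉ s.R

/-- claimed tokens -/
def c (s : St ν) (x : Site) : ℕ := s.C.count x

/-- tokens -/
def z (s : St ν) (x : Site) : ℕ := s.Z.count x

/-- the balance above the floor -/
def g (s : St ν) : ℤ := led s.De s.O - s.Z.card + s.C.card - 2

/-- the measure -/
def mu (s : St ν) : ℕ := 6 * s.De.card + s.O.card

def addZ (s : St ν) (nw : Multiset Site) : St ν := { s with Z := nw + s.Z }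

def claim (s : St ν) (y : Site) (t : ℕ) : St ν := { s with C := Multiset.replicate t y + s.C }

def absorb (s : St ν) (x : Site) : St ν := { s with De := insert x s.De }

def turn (s : St ν) : St ν := { s with O := insert s.e s.O, e := (s.e.1, s.e.2 + 1) }

def go (s : St ν) : St ν := { s with O := insert s.e s.O, e := (corner s.e, s.e.2 - 1) }

/-- the corner becomes a real site with the node `n` -/
def land (s : St ν) (n : ν) : St ν :=
  { s with
    R := insert (corner s.e) s.R
    nd := Function.update s.nd (corner s.e) n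
    O := insert s.e s.O
    e := (corner s.e, s.e.2 - 1) }

/-- the corner becomes a virtual site -/
def pass (s : St ν) : St ν :=
  { s with
    R := insert (corner s.e) s.R
    V := insert (corner s.e) s.V
    vj := Function.update s.vj (corner s.e) (s.e.2 + 4)
    O := insert s.e s.O
    e := (corner s.e, s.e.2 - 1) }

/-- the virtual site `x` joins the wall -/
def retro (s : St ν) (x : Site) (O' : Finset Dart) : St ν :=
  { s with
    De := insert x s.De
    R := s.R.erase x
    V := s.V.erase x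
    O := O'
    e := (x + d (s.vj x), s.vj x + 3) }

@[simp] theorem addZ_De (s : St ν) (nw : Multiset Site) : (s.addZ nw).De = s.De := rfl
@[simp] theorem addZ_R (s : St ν) (nw : Multiset Site) : (s.addZ nw).R = s.R := rfl
@[simp] theorem addZ_V (s : St ν) (nw : Multiset Site) : (s.addZ nw).V = s.V := rfl
@[simp] theorem addZ_O (s : St ν) (nw : Multiset Site) : (s.addZ nw).O = s.O := rfl
@[simp] theorem addZ_e (s : St ν) (nw : Multiset Site) : (s.addZ nw).e = s.e := rfl
@[simp] theorem addZ_Z (s : St ν) (nw : Multiset Site) : (s.addZ nw).Z = nw + s.Z := rfl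
@[simp] theorem addZ_C (s : St ν) (nw : Multiset Site) : (s.addZ nw).C = s.C := rfl
@[simp] theorem addZ_nd (s : St ν) (nw : Multiset Site) : (s.addZ nw).nd = s.nd := rfl
@[simp] theorem addZ_vj (s : St ν) (nw : Multiset Site) : (s.addZ nw).vj = s.vj := rfl
@[simp] theorem addZ_c (s : St ν) (nw : Multiset Site) (u : Site) :
    (s.addZ nw).c u = s.c u := rfl
@[simp] theorem addZ_U (s : St ν) (nw : Multiset Site) (u : Site) :
    (s.addZ nw).U u ↔ s.U u := Iff.rfl
@[simp] theorem addZ_mu (s : St ν) (nw : Multiset Site) : (s.addZ nw).mu = s.mu := rfl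

@[simp] theorem claim_De (s : St ν) (y : Site) (t : ℕ) : (s.claim y t).De = s.De := rfl
@[simp] theorem claim_R (s : St ν) (y : Site) (t : ℕ) : (s.claim y t).R = s.R := rfl
@[simp] theorem claim_V (s : St ν) (y : Site) (t : ℕ) : (s.claim y t).V = s.V := rfl
@[simp] theorem claim_O (s : St ν) (y : Site) (t : ℕ) : (s.claim y t).O = s.O := rfl
@[simp] theorem claim_e (s : St ν) (y : Site) (t : ℕ) : (s.claim y t).e = s.e := rfl
@[simp] theorem claim_Z (s : St ν) (y : Site) (t : ℕ) : (s.claim y t).Z = s.Z := rfl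
@[simp] theorem claim_C (s : St ν) (y : Site) (t : ℕ) :
    (s.claim y t).C = Multiset.replicate t y + s.C := rfl
@[simp] theorem claim_nd (s : St ν) (y : Site) (t : ℕ) : (s.claim y t).nd = s.nd := rfl
@[simp] theorem claim_vj (s : St ν) (y : Site) (t : ℕ) : (s.claim y t).vj = s.vj := rfl
@[simp] theorem claim_z (s : St ν) (y : Site) (t : ℕ) (u : Site) :
    (s.claim y t).z u = s.z u := rfl
@[simp] theorem claim_U (s : St ν) (y : Site) (t : ℕ) (u : Site) :
    (s.claim y t).U u ↔ s.U u := Iff.rfl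
@[simp] theorem claim_mu (s : St ν) (y : Site) (t : ℕ) : (s.claim y t).mu = s.mu := rfl

@[simp] theorem absorb_De (s : St ν) (x : Site) : (s.absorb x).De = insert x s.De := rfl
@[simp] theorem absorb_R (s : St ν) (x : Site) : (s.absorb x).R = s.R := rfl
@[simp] theorem absorb_V (s : St ν) (x : Site) : (s.absorb x).V = s.V := rfl
@[simp] theorem absorb_O (s : St ν) (x : Site) : (s.absorb x).O = s.O := rfl
@[simp] theorem absorb_e (s : St ν) (x : Site) : (s.absorb x).e = s.e := rfl
@[simp] theorem absorb_Z (s : St ν) (x : Site) : (s.absorb x).Z = s.Z := rfl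
@[simp] theorem absorb_C (s : St ν) (x : Site) : (s.absorb x).C = s.C := rfl
@[simp] theorem absorb_nd (s : St ν) (x : Site) : (s.absorb x).nd = s.nd := rfl
@[simp] theorem absorb_vj (s : St ν) (x : Site) : (s.absorb x).vj = s.vj := rfl
@[simp] theorem absorb_c (s : St ν) (x : Site) (u : Site) :
    (s.absorb x).c u = s.c u := rfl
@[simp] theorem absorb_z (s : St ν) (x : Site) (u : Site) :
    (s.absorb x).z u = s.z u := rfl

@[simp] theorem turn_De (s : St ν) : s.turn.De = s.De := rfl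
@[simp] theorem turn_R (s : St ν) : s.turn.R = s.R := rfl
@[simp] theorem turn_V (s : St ν) : s.turn.V = s.V := rfl
@[simp] theorem turn_O (s : St ν) : s.turn.O = insert s.e s.O := rfl
@[simp] theorem turn_e (s : St ν) : s.turn.e = (s.e.1, s.e.2 + 1) := rfl
@[simp] theorem turn_Z (s : St ν) : s.turn.Z = s.Z := rfl
@[simp] theorem turn_C (s : St ν) : s.turn.C = s.C := rfl
@[simp] theorem turn_nd (s : St ν) : s.turn.nd = s.nd := rfl
@[simp] theorem turn_vj (s : St ν) : s.turn.vj = s.vj := rfl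
@[simp] theorem turn_c (s : St ν) (u : Site) :
    s.turn.c u = s.c u := rfl
@[simp] theorem turn_z (s : St ν) (u : Site) :
    s.turn.z u = s.z u := rfl
@[simp] theorem turn_U (s : St ν) (u : Site) :
    s.turn.U u ↔ s.U u := Iff.rfl

@[simp] theorem go_De (s : St ν) : s.go.De = s.De := rfl
@[simp] theorem go_R (s : St ν) : s.go.R = s.R := rfl
@[simp] theorem go_V (s : St ν) : s.go.V = s.V := rfl
@[simp] theorem go_O (s : St ν) : s.go.O = insert s.e s.O := rfl
@[simp] theorem go_e (s : St ν) : s.go.e = (corner s.e, s.e.2 - 1) := rfl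
@[simp] theorem go_Z (s : St ν) : s.go.Z = s.Z := rfl
@[simp] theorem go_C (s : St ν) : s.go.C = s.C := rfl
@[simp] theorem go_nd (s : St ν) : s.go.nd = s.nd := rfl
@[simp] theorem go_vj (s : St ν) : s.go.vj = s.vj := rfl
@[simp] theorem go_c (s : St ν) (u : Site) :
    s.go.c u = s.c u := rfl
@[simp] theorem go_z (s : St ν) (u : Site) :
    s.go.z u = s.z u := rfl
@[simp] theorem go_U (s : St ν) (u : Site) :
    s.go.U u ↔ s.U u := Iff.rfl

@[simp] theorem land_De (s : St ν) (n : ν) : (s.land n).De = s.De := rfl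
@[simp] theorem land_R (s : St ν) (n : ν) : (s.land n).R = insert (corner s.e) s.R := rfl
@[simp] theorem land_V (s : St ν) (n : ν) : (s.land n).V = s.V := rfl
@[simp] theorem land_O (s : St ν) (n : ν) : (s.land n).O = insert s.e s.O := rfl
@[simp] theorem land_e (s : St ν) (n : ν) : (s.land n).e = (corner s.e, s.e.2 - 1) := rfl
@[simp] theorem land_Z (s : St ν) (n : ν) : (s.land n).Z = s.Z := rfl
@[simp] theorem land_C (s : St ν) (n : ν) : (s.land n).C = s.C := rfl
@[simp] theorem land_nd (s : St ν) (n : ν) :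
    (s.land n).nd = Function.update s.nd (corner s.e) n := rfl
@[simp] theorem land_vj (s : St ν) (n : ν) : (s.land n).vj = s.vj := rfl
@[simp] theorem land_c (s : St ν) (n : ν) (u : Site) :
    (s.land n).c u = s.c u := rfl
@[simp] theorem land_z (s : St ν) (n : ν) (u : Site) :
    (s.land n).z u = s.z u := rfl

@[simp] theorem pass_De (s : St ν) : s.pass.De = s.De := rfl
@[simp] theorem pass_R (s : St ν) : s.pass.R = insert (corner s.e) s.R := rfl
@[simp] theorem pass_V (s : St ν) : s.pass.V = insert (corner s.e) s.V := rfl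
@[simp] theorem pass_O (s : St ν) : s.pass.O = insert s.e s.O := rfl
@[simp] theorem pass_e (s : St ν) : s.pass.e = (corner s.e, s.e.2 - 1) := rfl
@[simp] theorem pass_Z (s : St ν) : s.pass.Z = s.Z := rfl
@[simp] theorem pass_C (s : St ν) : s.pass.C = s.C := rfl
@[simp] theorem pass_nd (s : St ν) : s.pass.nd = s.nd := rfl
@[simp] theorem pass_vj (s : St ν) :
    s.pass.vj = Function.update s.vj (corner s.e) (s.e.2 + 4) := rfl
@[simp] theorem pass_c (s : St ν) (u : Site) :
    s.pass.c u = s.c u := rfl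
@[simp] theorem pass_z (s : St ν) (u : Site) :
    s.pass.z u = s.z u := rfl

@[simp] theorem retro_De (s : St ν) (x : Site) (O' : Finset Dart) :
    (s.retro x O').De = insert x s.De := rfl
@[simp] theorem retro_R (s : St ν) (x : Site) (O' : Finset Dart) :
    (s.retro x O').R = s.R.erase x := rfl
@[simp] theorem retro_V (s : St ν) (x : Site) (O' : Finset Dart) :
    (s.retro x O').V = s.V.erase x := rfl
@[simp] theorem retro_O (s : St ν) (x : Site) (O' : Finset Dart) : (s.retro x O').O = O' := rfl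
@[simp] theorem retro_e (s : St ν) (x : Site) (O' : Finset Dart) :
    (s.retro x O').e = (x + d (s.vj x), s.vj x + 3) := rfl
@[simp] theorem retro_Z (s : St ν) (x : Site) (O' : Finset Dart) : (s.retro x O').Z = s.Z := rfl
@[simp] theorem retro_C (s : St ν) (x : Site) (O' : Finset Dart) : (s.retro x O').C = s.C := rfl
@[simp] theorem retro_nd (s : St ν) (x : Site) (O' : Finset Dart) : (s.retro x O').nd = s.nd := rfl
@[simp] theorem retro_vj (s : St ν) (x : Site) (O' : Finset Dart) : (s.retro x O').vj = s.vj := rfl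
@[simp] theorem retro_c (s : St ν) (x : Site) (O' : Finset Dart) (u : Site) :
    (s.retro x O').c u = s.c u := rfl
@[simp] theorem retro_z (s : St ν) (x : Site) (O' : Finset Dart) (u : Site) :
    (s.retro x O').z u = s.z u := rfl

theorem c_claim (s : St ν) (y : Site) (t : ℕ) (u : Site) :
    (s.claim y t).c u = s.c u + if u = y then t else 0 := by
  simp only [c, claim, Multiset.count_add, Multiset.count_replicate, @eq_comm _ y u]
  omega

theorem c_claim_self (s : St ν) (y : Site) (t : ℕ) : (s.claim y t).c y = s.c y + t := by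
  rw [c_claim, if_pos rfl]

theorem c_claim_ne (s : St ν) {y u : Site} (t : ℕ) (h : u ≠ y) : (s.claim y t).c u = s.c u := by
  rw [c_claim, if_neg h, add_zero]

theorem z_addZ (s : St ν) (nw : Multiset Site) (u : Site) :
    (s.addZ nw).z u = nw.count u + s.z u := Multiset.count_add _ _ _

theorem g_addZ (s : St ν) (nw : Multiset Site) : (s.addZ nw).g = s.g - nw.card := by
  simp only [g, addZ, Multiset.card_add]
  push_cast
  ring

theorem g_claim (s : St ν) (y : Site) (t : ℕ) : (s.claim y t).g = s.g + t := by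
  simp only [g, claim, Multiset.card_add, Multiset.card_replicate]
  push_cast
  ring

theorem U_absorb {x u : Site} : (s.absorb x).U u ↔ u ≠ x ∧ s.U u := by
  simp only [U, absorb, wall_insert]
  tauto

theorem U_land {n : ν} {u : Site} : (s.land n).U u ↔ u ≠ corner s.e ∧ s.U u := by
  simp only [U, land, mem_insert]
  tauto

theorem U_pass {u : Site} : s.pass.U u ↔ u ≠ corner s.e ∧ s.U u := by
  simp only [U, pass, mem_insert]
  tauto

theorem U_retro {x u : Site} {O' : Finset Dart} (hx : x ∈ s.R) : (s.retro x O').U u ↔ s.U u := by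
  simp only [U, retro, wall_insert, mem_erase]
  by_cases h : u = x
  · subst h
    tauto
  · tauto

theorem dec (s : St ν) (x : Site) : Wall s.De x ∨ x ∈ s.R ∨ s.U x := by
  unfold U
  tauto

theorem mu_absorb {x : Site} (h : s.U x) : (s.absorb x).mu = s.mu + 6 := by
  simp only [mu, absorb, card_insert_of_notMem fun a => h.1 (Or.inr a)]
  ring

end St

/-- the invariant -/
structure Inv (P : Par ν) (s : St ν) : Prop where
  geo : Geo s.De s.R s.O s.e
  cz : ∀ y, s.c y ≤ s.z y
  boxD : ∀ y ∈ s.De, Box P.M y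
  boxR : ∀ y ∈ s.R, Box P.M y
  node : ∀ r ∈ s.R, r ∉ s.V → P.ok s.Z r (s.nd r)
  u2 : ∀ u, s.U u → s.c u ≤ 2
  u1 : ∀ u, s.U u → K1 s.De u → s.c u ≤ 1
  u0 : ∀ u, s.U u → K0 s.De u → s.c u = 0
  j0 : ∀ a k, Wall s.De a → s.U (a + d k) → s.U (a + d (k + 1)) → s.U (a + d (k + 2)) →
    K1 s.De (a + d k) → K1 s.De (a + d (k + 2)) →
    s.c a + s.c (a + d (k + 2)) + s.c (a + d k) ≤ 5
  j1 : ∀ a k, Wall s.De a → s.U (a + d k) → s.U (a + d (k + 1)) → s.U (a + d (k + 2)) →
    s.U (a + d (k + 3)) → K1 s.De (a + d k) → s.c a + s.c (a + d k) ≤ 4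
  rc : ∀ r ∈ s.R, r ∉ s.V → ∀ k, r + d k ∈ s.R → s.U (r + d (k + 1)) → s.U (r + d (k + 2)) →
    s.U (r + d (k + 3)) → s.c r ≤ 2
  nd : ∀ r ∈ s.R, ∃ i, (r, i) ∈ insert s.e s.O
  v0 : ∀ v ∈ s.V, v ≠ (0, 0) ∧ v + d (s.vj v) ∈ s.R ∧ v + d (s.vj v) ∉ s.V ∧
    (v, s.vj v + 1) ∈ insert s.e s.O ∧ s.c v ≤ 3
  vH : ∀ v ∈ s.V, P.H (s.nd (v + d (s.vj v))) (v + d (s.vj v)) ∨
    ¬ s.U (v + d (s.vj v) + d (s.vj v + 5))
  vbig : ∀ v ∈ s.V, ¬ Wall s.De (v + d (s.vj v + 2)) → ¬ Wall s.De (v + d (s.vj v + 4)) →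
    s.c v + 3 ≤ min 3 (s.z v) ∨ (s.c v + 2 ≤ min 3 (s.z v) ∧
      (P.Cok (s.nd (v + d (s.vj v))) (v + d (s.vj v)) v ∨
        ¬ s.U (v + d (s.vj v) + d (s.vj v))))

namespace Inv

theorem vR (h : Inv P s) {v : Site} (hv : v ∈ s.V) : v ∈ s.R :=
  (h.geo.ok _ (h.v0 v hv).2.2.2.1).2

theorem mu_le (h : Inv P s) : s.mu ≤ 12 * (Icc (-P.M) P.M ×ˢ Icc (-P.M) P.M).card :=
  h.geo.measure_le h.boxD h.boxR

/-- the site before a walked dart is decided -/
theorem back_dec (h : Inv P s) {b : Site} {i : ZMod 6} (hf : (b, i) ∈ insert s.e s.O) :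
    ¬ s.U (b + d (i + 5)) := by
  have := h.geo.back hf
  rw [(by decide : ∀ i : ZMod 6, i - 1 = i + 5) i] at this
  exact fun a => this.elim (fun b => a.1 b.1) fun b => a.2 b.1

theorem corner_dec (h : Inv P s) {b : Site} {i : ZMod 6} (hf : (b, i) ∈ s.O) :
    ¬ s.U (b + d (i + 1)) := fun a => (h.geo.dec _ hf).elim a.1 a.2

theorem wall_of (h : Inv P s) {b : Site} {i : ZMod 6} (hf : (b, i) ∈ insert s.e s.O) :
    Wall s.De (b + d i) := (h.geo.ok _ hf).1

/-- a right site other than the head has three decided neighbours in a row -/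
theorem three (h : Inv P s) {r : Site} (hr : r ∈ s.R) (he : r ≠ s.e.1) : ∃ i, (r, i) ∈ s.O ∧
    ¬ s.U (r + d (i + 5)) ∧ Wall s.De (r + d i) ∧ ¬ s.U (r + d (i + 1)) := by
  obtain ⟨i, a⟩ := h.nd r hr
  have b : (r, i) ∈ s.O := (mem_insert.1 a).resolve_left fun e => he (by rw [← e])
  exact ⟨i, b, h.back_dec a, h.wall_of a, h.corner_dec b⟩

theorem addZ (h : Inv P s) (nw : Multiset Site) : Inv P (s.addZ nw) := by
  have hz : ∀ y, s.z y ≤ (s.addZ nw).z y := fun y => by
    rw [St.z_addZ]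
    omega
  refine { h with
    cz := fun y => (h.cz y).trans (hz y)
    node := fun r a b => P.mono (Multiset.le_add_left _ _) (h.node r a b)
    vbig := fun v a b c => ?_ }
  exact (h.vbig v a b c).imp (fun e => e.trans (min_le_min_left _ (hz v)))
    fun e => ⟨e.1.trans (min_le_min_left _ (hz v)), e.2⟩

/-- general form of a claim -/
theorem claim (h : Inv P s) (y : Site) (t : ℕ) (hz : s.c y + t ≤ s.z y)
    (hU : s.U y → s.c y + t ≤ 2 ∧ (K1 s.De y → s.c y + t ≤ 1) ∧ (K0 s.De y → t = 0))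
    (h0 : ∀ a k, Wall s.De a → s.U (a + d k) → s.U (a + d (k + 1)) → s.U (a + d (k + 2)) →
      K1 s.De (a + d k) → K1 s.De (a + d (k + 2)) → a = y ∨ a + d (k + 2) = y ∨ a + d k = y →
      s.c a + s.c (a + d (k + 2)) + s.c (a + d k) + t ≤ 5)
    (h1 : ∀ a k, Wall s.De a → s.U (a + d k) → s.U (a + d (k + 1)) → s.U (a + d (k + 2)) →
      s.U (a + d (k + 3)) → K1 s.De (a + d k) → a = y ∨ a + d k = y →
      s.c a + s.c (a + d k) + t ≤ 4)
    (hR : y ∈ s.R → y ∉ s.V → ∀ k, y + d k ∈ s.R → s.U (y + d (k + 1)) → s.U (y + d (k + 2)) →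
      s.U (y + d (k + 3)) → s.c y + t ≤ 2)
    (hV : y ∈ s.V → s.c y + t ≤ 3 ∧ (¬ Wall s.De (y + d (s.vj y + 2)) →
      ¬ Wall s.De (y + d (s.vj y + 4)) → s.c y + t + 3 ≤ min 3 (s.z y) ∨
        (s.c y + t + 2 ≤ min 3 (s.z y) ∧ (P.Cok (s.nd (y + d (s.vj y))) (y + d (s.vj y)) y ∨
          ¬ s.U (y + d (s.vj y) + d (s.vj y)))))) : Inv P (s.claim y t) := by
  have hc := s.c_claim y t
  refine { h with
    cz := fun u => ?_
    u2 := fun u a => ?_
    u1 := fun u a b => ?_
    u0 := fun u a b => ?_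
    j0 := fun a k a1 a2 a3 a4 a5 a6 => ?_
    j1 := fun a k a1 a2 a3 a4 a5 a6 => ?_
    rc := fun r a b k a1 a2 a3 a4 => ?_
    v0 := fun v a => ?_
    vbig := fun v a b c => ?_ }
  · rw [hc]
    split_ifs with e
    · exact e ▸ hz
    · exact h.cz u
  · rw [hc]
    split_ifs with e
    · subst e
      exact (hU a).1
    · exact h.u2 u a
  · rw [hc]
    split_ifs with e
    · subst e
      exact (hU a).2.1 b
    · exact h.u1 u a b
  · rw [hc]
    split_ifs with e
    · subst e
      rw [(hU a).2.2 b]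
      exact h.u0 u a b
    · exact h.u0 u a b
  · have b0 := h.j0 a k a1 a2 a3 a4 a5 a6
    have b1 := h0 a k a1 a2 a3 a4 a5 a6
    have n1 : a + d (k + 2) ≠ a + d k := fun e =>
      (by decide : ∀ i : ZMod 6, i + 2 ≠ i) k (add_d_inj e)
    have n2 := add_d_ne a k
    have n3 := add_d_ne a (k + 2)
    simp only [hc]
    split_ifs with e1 e2 e3 e4 e5 e6 e7
    · exact absurd (e2.trans e1.symm) n3
    · exact absurd (e2.trans e1.symm) n3
    · exact absurd (e4.trans e1.symm) n2
    · have := b1 (Or.inl e1)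
      omega
    · exact absurd (e5.trans e6.symm) n1
    · have := b1 (Or.inr (Or.inl e5))
      omega
    · have := b1 (Or.inr (Or.inr e7))
      omega
    · omega
  · have b0 := h.j1 a k a1 a2 a3 a4 a5 a6
    have b1 := h1 a k a1 a2 a3 a4 a5 a6
    simp only [hc]
    split_ifs with e1 e2 e3
    · exact absurd (e2.trans e1.symm) (add_d_ne a k)
    · have := b1 (Or.inl e1)
      omega
    · have := b1 (Or.inr e3)
      omega
    · omega
  · rw [hc]
    split_ifs with e
    · subst e
      exact hR a b k a1 a2 a3 a4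
    · exact h.rc r a b k a1 a2 a3 a4
  · obtain ⟨a1, a2, a3, a4, a5⟩ := h.v0 v a
    refine ⟨a1, a2, a3, a4, ?_⟩
    rw [hc]
    split_ifs with e
    · subst e
      exact (hV a).1
    · exact a5
  · rw [hc]
    split_ifs with e
    · subst e
      exact (hV a).2 b c
    · exact h.vbig v a b c

theorem absorb (h : Inv P s) {x : Site} (hx : s.U x) (hb : Box P.M x) : Inv P (s.absorb x) := by
  have hs : s.De ⊆ (s.absorb x).De := subset_insert _ _
  have hu : ∀ {u}, (s.absorb x).U u → s.U u := fun a => (St.U_absorb.1 a).2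
  refine { h with
    geo := h.geo.absorb hx.2 hx.1
    boxD := fun y a => ?_
    u2 := fun u a => h.u2 u (hu a)
    u1 := fun u a b => h.u1 u (hu a) (b.anti hs)
    u0 := fun u a b => h.u0 u (hu a) (b.anti hs)
    j0 := fun a k a1 a2 a3 a4 a5 a6 => ?_
    j1 := fun a k a1 a2 a3 a4 a5 a6 => ?_
    rc := fun r a b k a1 a2 a3 a4 => h.rc r a b k a1 (hu a2) (hu a3) (hu a4)
    vH := fun v a => (h.vH v a).imp id fun b c => b (hu c)
    vbig := fun v a b c => ?_ }
  · rcases mem_insert.1 a with rfl | a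
    · exact hb
    · exact h.boxD y a
  · rcases wall_insert.1 a1 with rfl | a1
    · have b1 := h.u2 _ hx
      have b2 := h.u1 _ (hu a2) (a5.anti hs)
      have b3 := h.u1 _ (hu a4) (a6.anti hs)
      exact (add_le_add (add_le_add b1 b3) b2).trans (by norm_num)
    · exact h.j0 a k a1 (hu a2) (hu a3) (hu a4) (a5.anti hs) (a6.anti hs)
  · rcases wall_insert.1 a1 with rfl | a1
    · have b1 := h.u2 _ hx
      have b2 := h.u1 _ (hu a2) (a6.anti hs)
      exact (add_le_add b1 b2).trans (by norm_num)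
    · exact h.j1 a k a1 (hu a2) (hu a3) (hu a4) (hu a5) (a6.anti hs)
  · exact (h.vbig v a (fun e => b (e.mono hs)) fun e => c (e.mono hs)).imp id fun e =>
      ⟨e.1, e.2.imp id fun b c => b (hu c)⟩

theorem g_absorb (h : Inv P s) {x : Site} (hx : s.U x) : (s.absorb x).g = s.g - need s.De x := by
  simp only [St.g, St.absorb, h.geo.led_absorb hx.2 hx.1]
  ring

/-- after the absorption of `x` its cheap undecided neighbours carry no claim -/
theorem fresh (h : Inv P s) {x : Site} (hx : ¬ Wall s.De x) {k : ZMod 6} (hu : s.U (x + d k))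
    (h1 : K1 (insert x s.De) (x + d k)) : s.c (x + d k) = 0 := by
  have e : x + d k + d (k + 3) = x := by rw [add_assoc, d_add3, add_zero]
  exact h.u0 _ hu (K1.k0 (k := k + 3) (by rw [e]; exact hx) (by rw [e]; exact h1))

theorem clean (h : Inv P s) {x : Site} (hx : s.U x) {k : ZMod 6} (hu : s.U (x + d k))
    (h1 : K1 (insert x s.De) (x + d k)) : s.c (x + d k) = 0 := h.fresh hx.1 hu h1

/-- a claim on a wall site -/
theorem claimW (h : Inv P s) {y : Site} (hy : Wall s.De y) (t : ℕ) (hz : s.c y + t ≤ s.z y)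
    (h0 : ∀ k, s.U (y + d k) → s.U (y + d (k + 1)) → s.U (y + d (k + 2)) →
      K1 s.De (y + d k) → K1 s.De (y + d (k + 2)) →
      s.c y + s.c (y + d (k + 2)) + s.c (y + d k) + t ≤ 5)
    (h1 : ∀ k, s.U (y + d k) → s.U (y + d (k + 1)) → s.U (y + d (k + 2)) →
      s.U (y + d (k + 3)) → K1 s.De (y + d k) → s.c y + s.c (y + d k) + t ≤ 4) :
    Inv P (s.claim y t) := by
  refine h.claim y t hz (fun a => absurd hy a.1) (fun a k _ a2 a3 a4 a5 a6 e => ?_)
    (fun a k _ a2 a3 a4 a5 a6 e => ?_) (fun a => absurd hy (h.geo.free _ a))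
    fun a => absurd hy (h.geo.free _ (h.vR a))
  · rcases e with rfl | e | e
    · exact h0 k a2 a3 a4 a5 a6
    · exact absurd (e ▸ hy) a4.1
    · exact absurd (e ▸ hy) a2.1
  · rcases e with rfl | e
    · exact h1 k a2 a3 a4 a5 a6
    · exact absurd (e ▸ hy) a2.1

/-- a wall site may carry three claims -/
theorem claimW3 (h : Inv P s) {y : Site} (hy : Wall s.De y) (t : ℕ) (hz : s.c y + t ≤ s.z y)
    (h3 : s.c y + t ≤ 3) : Inv P (s.claim y t) := by
  refine h.claimW hy t hz (fun k a1 _ a3 a4 a5 => ?_) fun k a1 _ _ _ a5 => ?_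
  · have := h.u1 _ a1 a4
    have := h.u1 _ a3 a5
    omega
  · have := h.u1 _ a1 a5
    omega

/-- absorption paid by the tokens of the site -/
theorem absorbC (h : Inv P s) {x : Site} (hx : s.U x) (hb : Box P.M x) (t : ℕ)
    (hz : s.c x + t ≤ s.z x) (h4 : s.c x + t ≤ 4) : Inv P ((s.absorb x).claim x t) := by
  refine (h.absorb hx hb).claimW (wall_insert.2 (Or.inl rfl)) t hz (fun k a1 _ a3 a4 a5 => ?_)
    fun k a1 _ _ _ a5 => ?_
  · have b1 := h.clean hx (St.U_absorb.1 a1).2 a4
    have b2 := h.clean hx (St.U_absorb.1 a3).2 a5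
    show s.c x + s.c _ + s.c _ + t ≤ 5
    omega
  · have b1 := h.clean hx (St.U_absorb.1 a1).2 a5
    show s.c x + s.c _ + t ≤ 4
    omega

theorem g_absorbC (h : Inv P s) {x : Site} (hx : s.U x) (t : ℕ) :
    ((s.absorb x).claim x t).g = s.g - need s.De x + t := by
  rw [St.g_claim, h.g_absorb hx]

/-- one token is borrowed from an undecided site with wall neighbours in positions `k`, `k + 1` -/
theorem borrow (h : Inv P s) {u : Site} {k : ZMod 6} (hu : s.U u) (w0 : Wall s.De (u + d k))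
    (w1 : Wall s.De (u + d (k + 1))) (hz : s.c u + 1 ≤ s.z u) (hc : s.c u ≤ 1)
    (hk : K1 s.De u → s.c u = 0 ∧ s.c (u + d k) ≤ 3 ∧
      (s.U (u + d (k + 1) + d (k + 2)) → s.U (u + d (k + 1) + d (k + 3)) →
        K1 s.De (u + d (k + 1) + d (k + 2)) →
        s.c (u + d (k + 1)) + s.c (u + d (k + 1) + d (k + 2)) ≤ 4)) : Inv P (s.claim u 1) := by
  have two : K1 s.De u → ∀ j, Wall s.De (u + d j) → j = k ∨ j = k + 1 := fun ⟨m, a⟩ j b => by
    have a1 := a k w0
    have a2 := a _ w1
    have a3 := a j b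
    revert a1 a2 a3
    exact (by decide : ∀ k m j : ZMod 6, k = m ∨ k = m + 1 → k + 1 = m ∨ k + 1 = m + 1 →
      j = m ∨ j = m + 1 → j = k ∨ j = k + 1) k m j
  have bk : ∀ (a : Site) (m : ZMod 6), a + d m + d (m + 3) = a := fun a m => by
    rw [add_assoc, d_add3, add_zero]
  have o_role : ∀ (a : Site) (m : ZMod 6), Wall s.De a → s.U (a + d (m + 1)) → a + d m = u →
      K1 s.De u → a = u + d k := fun a m a1 a3 e b => by
    rcases two b (m + 3) (by rw [← e, bk]; exact a1) with c | c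
    · rw [← c, ← e, bk]
    · refine absurd ?_ a3.1
      have : k = m + 2 := (by decide : ∀ m k : ZMod 6, m + 3 = k + 1 → k = m + 2) m k c
      rwa [this, ← e, add_assoc, d_add] at w0
  refine h.claim u 1 hz (fun _ => ⟨by omega, fun a => by rw [(hk a).1], fun a => ?_⟩)
    (fun a m a1 a2 a3 a4 a5 a6 e => ?_) (fun a m a1 a2 a3 a4 a5 a6 e => ?_)
    (fun a => absurd a hu.2) fun a => absurd (h.vR a) hu.2
  · exact absurd (a _ _ w0 w1) ((by decide : ∀ k : ZMod 6, k ≠ k + 1) k)
  · rcases e with rfl | e | e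
    · exact absurd a1 hu.1
    · have b := hk (e ▸ a6)
      rcases two (e ▸ a6) (m + 2 + 3) (by rw [← e, bk]; exact a1) with c | c
      · refine absurd ?_ a3.1
        have : k + 1 = m + 2 + 4 := by
          rw [← c]
          ring
        rwa [this, ← e, add_assoc, d_add4, show m + 2 - 1 = m + 1 by ring] at w1
      · have c1 : u + d (k + 1) = a := by rw [← c, ← e, bk]
        have c2 : k + 2 = m := (by decide : ∀ m k : ZMod 6, m + 2 + 3 = k + 1 → k + 2 = m) m k c
        have c3 : k + 3 = m + 1 := by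
          rw [← c2]
          ring
        rw [c1, c2, c3] at b
        have := b.2.2 a2 a3 a5
        rw [e, b.1]
        omega
    · have b := hk (e ▸ a5)
      have c := o_role a m a1 a3 e (e ▸ a5)
      have := h.u1 _ a4 a6
      rw [← c] at b
      rw [e, b.1]
      omega
  · rcases e with rfl | e
    · exact absurd a1 hu.1
    · have b := hk (e ▸ a6)
      have c := o_role a m a1 a3 e (e ▸ a6)
      rw [← c] at b
      rw [e, b.1]
      omega

/-- a claim on the real head -/
theorem claimB (h : Inv P s) (hv : s.e.1 ∉ s.V) (t : ℕ) (hz : s.c s.e.1 + t ≤ s.z s.e.1)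
    (hc : corner s.e ∉ s.R ∨ s.c s.e.1 + t ≤ 2 ∨ ¬ s.U (s.e.1 + d (s.e.2 + 2)) ∨
      ¬ s.U (s.e.1 + d (s.e.2 + 3)) ∨ ¬ s.U (s.e.1 + d (s.e.2 + 4))) :
    Inv P (s.claim s.e.1 t) := by
  have hr := h.geo.right
  have hw := h.geo.wall
  have hb : ¬ s.U (s.e.1 + d (s.e.2 + 5)) := h.back_dec (mem_insert_self _ _)
  refine h.claim _ t hz (fun a => absurd hr a.2) (fun a k a1 a2 _ a4 _ _ e => ?_)
    (fun a k a1 a2 _ _ _ _ e => ?_) (fun _ _ k a1 a2 a3 a4 => ?_) fun a => absurd a hv
  · rcases e with rfl | e | e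
    · exact absurd a1 (h.geo.free _ hr)
    · exact absurd (e ▸ hr) a4.2
    · exact absurd (e ▸ hr) a2.2
  · rcases e with rfl | e
    · exact absurd a1 (h.geo.free _ hr)
    · exact absurd (e ▸ hr) a2.2
  · rcases six_cases s.e.2 k with rfl | rfl | rfl | rfl | rfl | rfl
    · exact absurd hw (h.geo.free _ a1)
    · rw [show s.e.2 + 1 + 1 = s.e.2 + 2 by ring] at a2
      rw [show s.e.2 + 1 + 2 = s.e.2 + 3 by ring] at a3
      rw [show s.e.2 + 1 + 3 = s.e.2 + 4 by ring] at a4
      rcases hc with b | b | b | b | b <;> first | exact b | contradiction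
    · exact absurd (by rwa [show s.e.2 + 2 + 3 = s.e.2 + 5 by ring] at a4) hb
    · exact absurd (by rwa [show s.e.2 + 3 + 2 = s.e.2 + 5 by ring] at a3) hb
    · exact absurd (by rwa [show s.e.2 + 4 + 1 = s.e.2 + 5 by ring] at a2) hb
    · rw [(by decide : ∀ i : ZMod 6, i + 5 + 1 = i) s.e.2] at a2
      exact absurd hw a2.1

/-- a claim on any real site -/
theorem claimR (h : Inv P s) {r : Site} (hr : r ∈ s.R) (hv : r ∉ s.V) (t : ℕ)
    (hz : s.c r + t ≤ s.z r)
    (hc : ∀ k, r + d k ∈ s.R → s.U (r + d (k + 1)) → s.U (r + d (k + 2)) → s.U (r + d (k + 3)) →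
      s.c r + t ≤ 2) : Inv P (s.claim r t) := by
  refine h.claim _ t hz (fun a => absurd hr a.2) (fun a k a1 a2 _ a4 _ _ e => ?_)
    (fun a k a1 a2 _ _ _ _ e => ?_) (fun _ _ => hc) fun a => absurd a hv
  · rcases e with rfl | e | e
    · exact absurd a1 (h.geo.free _ hr)
    · exact absurd (e ▸ hr) a4.2
    · exact absurd (e ▸ hr) a2.2
  · rcases e with rfl | e
    · exact absurd a1 (h.geo.free _ hr)
    · exact absurd (e ▸ hr) a2.2

/-- a claim on a virtual site -/
theorem claimV (h : Inv P s) {v : Site} (hv : v ∈ s.V) (t : ℕ)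
    (hz : s.c v + t ≤ min 3 (s.z v))
    (hV : ¬ Wall s.De (v + d (s.vj v + 2)) → ¬ Wall s.De (v + d (s.vj v + 4)) →
      s.c v + t + 3 ≤ min 3 (s.z v) ∨ (s.c v + t + 2 ≤ min 3 (s.z v) ∧
        (P.Cok (s.nd (v + d (s.vj v))) (v + d (s.vj v)) v ∨
          ¬ s.U (v + d (s.vj v) + d (s.vj v))))) : Inv P (s.claim v t) := by
  have hr := h.vR hv
  refine h.claim _ t (hz.trans (min_le_right _ _)) (fun a => absurd hr a.2)
    (fun a k a1 a2 _ a4 _ _ e => ?_) (fun a k a1 a2 _ _ _ _ e => ?_) (fun _ a => absurd hv a)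
    fun _ => ⟨hz.trans (min_le_left _ _), hV⟩
  · rcases e with rfl | e | e
    · exact absurd a1 (h.geo.free _ hr)
    · exact absurd (e ▸ hr) a4.2
    · exact absurd (e ▸ hr) a2.2
  · rcases e with rfl | e
    · exact absurd a1 (h.geo.free _ hr)
    · exact absurd (e ▸ hr) a2.2

theorem turn (h : Inv P s) (hw : Wall s.De (corner s.e)) (hl : s.e ≠ ((0, 0), 0) ∨ -1 ≤ s.g) :
    Inv P s.turn ∧ s.turn.g = s.g ∧ s.turn.mu = s.mu + 1 := by
  have hc : s.C.card ≤ s.Z.card := card_le_of_count h.cz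
  have := Geo.turn (b := s.e.1) (i := s.e.2) h.geo hw (hl.imp id fun a => by
    simp only [St.g, led] at a
    omega)
  refine ⟨{ h with
    geo := this.1
    nd := fun r a => (h.nd r a).imp fun _ b => mem_insert_of_mem b
    v0 := fun v a => ?_ }, ?_, ?_⟩
  · obtain ⟨a1, a2, a3, a4, a5⟩ := h.v0 v a
    exact ⟨a1, a2, a3, mem_insert_of_mem a4, a5⟩
  · simp only [St.g, St.turn, led]
    rw [this.2]
  · simp only [St.mu, St.turn, card_insert_of_notMem h.geo.new]
    ring

theorem go (h : Inv P s) (hr : corner s.e ∈ s.R) :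
    Inv P s.go ∧ s.go.g = s.g + 2 ∧ s.go.mu = s.mu + 1 := by
  have := Geo.go (b := s.e.1) (i := s.e.2) h.geo hr
  refine ⟨{ h with
    geo := this.1
    nd := fun r a => (h.nd r a).imp fun _ b => mem_insert_of_mem b
    v0 := fun v a => ?_ }, ?_, ?_⟩
  · obtain ⟨a1, a2, a3, a4, a5⟩ := h.v0 v a
    exact ⟨a1, a2, a3, mem_insert_of_mem a4, a5⟩
  · simp only [St.g, St.go, led]
    rw [this.2]
    ring
  · simp only [St.mu, St.go, card_insert_of_notMem h.geo.new]
    ring

/-- the bound on real sites survives when the corner becomes a right site -/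
theorem rc_mark (h : Inv P s) (hx : s.U (corner s.e))
    (hb : s.e.1 ∉ s.V → s.U (s.e.1 + d (s.e.2 + 2)) → s.U (s.e.1 + d (s.e.2 + 3)) →
      s.U (s.e.1 + d (s.e.2 + 4)) → s.c s.e.1 ≤ 2) {r : Site} (a : r ∈ s.R) (b : r ∉ s.V)
    {k : ZMod 6} (a1 : r + d k ∈ insert (corner s.e) s.R) (a2 : s.U (r + d (k + 1)))
    (a3 : s.U (r + d (k + 2))) (a4 : s.U (r + d (k + 3))) : s.c r ≤ 2 := by
  rcases mem_insert.1 a1 with e | a1
  · by_cases e1 : r = s.e.1
    · subst e1
      have : k = s.e.2 + 1 := add_d_inj e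
      subst this
      exact hb b (by rwa [show s.e.2 + 1 + 1 = s.e.2 + 2 by ring] at a2)
        (by rwa [show s.e.2 + 1 + 2 = s.e.2 + 3 by ring] at a3)
        (by rwa [show s.e.2 + 1 + 3 = s.e.2 + 4 by ring] at a4)
    · obtain ⟨i, -, b1, b2, b3⟩ := h.three a e1
      have a0 : s.U (r + d k) := e ▸ hx
      rcases six_cases k i with rfl | rfl | rfl | rfl | rfl | rfl
      · exact absurd b2 a0.1
      · exact absurd b2 a2.1
      · exact absurd b2 a3.1
      · exact absurd b2 a4.1
      · exact absurd (by rwa [(by decide : ∀ i : ZMod 6, i + 4 + 5 = i + 3) k]) b1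
      · exact absurd (by rwa [(by decide : ∀ i : ZMod 6, i + 5 + 1 = i) k]) b3
  · exact h.rc r a b k a1 a2 a3 a4

/-- landing on the corner -/
theorem land (h : Inv P s) (hx : s.U (corner s.e)) {n : ν} (hn : P.ok s.Z (corner s.e) n)
    (hB : Box P.M (corner s.e))
    (hb : s.e.1 ∉ s.V → s.U (s.e.1 + d (s.e.2 + 2)) → s.U (s.e.1 + d (s.e.2 + 3)) →
      s.U (s.e.1 + d (s.e.2 + 4)) → s.c s.e.1 ≤ 2) :
    Inv P (s.land n) ∧ (s.land n).g = s.g + 2 ∧ (s.land n).mu = s.mu + 1 := by
  have := Geo.go (b := s.e.1) (i := s.e.2) (h.geo.mark hx.1) (mem_insert_self _ _)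
  have hu : ∀ {u}, (s.land n).U u → s.U u := fun a => (St.U_land.1 a).2
  have hnd : ∀ r ∈ s.R, (s.land n).nd r = s.nd r := fun r a =>
    Function.update_of_ne (fun e : r = corner s.e => hx.2 (e ▸ a)) _ _
  refine ⟨{ h with
    geo := this.1
    boxR := fun y a => ?_
    node := fun r a b => ?_
    u2 := fun u a => h.u2 u (hu a)
    u1 := fun u a b => h.u1 u (hu a) b
    u0 := fun u a b => h.u0 u (hu a) b
    j0 := fun a k a1 a2 a3 a4 a5 a6 => h.j0 a k a1 (hu a2) (hu a3) (hu a4) a5 a6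
    j1 := fun a k a1 a2 a3 a4 a5 a6 => h.j1 a k a1 (hu a2) (hu a3) (hu a4) (hu a5) a6
    rc := fun r a b k a1 a2 a3 a4 => ?_
    nd := fun r a => ?_
    v0 := fun v a => ?_
    vH := fun v a => ?_
    vbig := fun v a b c => ?_ }, ?_, ?_⟩
  · rcases mem_insert.1 a with rfl | a
    · exact hB
    · exact h.boxR y a
  · rcases mem_insert.1 a with rfl | a
    · rw [show (s.land n).nd (corner s.e) = n from Function.update_self _ _ _]
      exact hn
    · rw [hnd r a]
      exact h.node r a b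
  · rcases mem_insert.1 a with rfl | a
    · exact h.u2 _ hx
    · exact h.rc_mark hx hb a b a1 (hu a2) (hu a3) (hu a4)
  · rcases mem_insert.1 a with rfl | a
    · exact ⟨_, mem_insert_self _ _⟩
    · exact (h.nd r a).imp fun _ b => mem_insert_of_mem b
  · obtain ⟨a1, a2, a3, a4, a5⟩ := h.v0 v a
    exact ⟨a1, mem_insert_of_mem a2, a3, mem_insert_of_mem a4, a5⟩
  · rw [show (s.land n).vj = s.vj from rfl, hnd _ (h.v0 v a).2.1]
    exact (h.vH v a).imp id fun b c => b (hu c)
  · rw [show (s.land n).vj = s.vj from rfl, hnd _ (h.v0 v a).2.1]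
    exact (h.vbig v a b c).imp id fun e => ⟨e.1, e.2.imp id fun b c => b (hu c)⟩
  · simp only [St.g, St.land, led]
    rw [this.2]
    ring
  · simp only [St.mu, St.land, card_insert_of_notMem h.geo.new]
    ring

/-- the corner `x` of the head `(b, i)` is passed; `t` of its tokens are claimed.  Round `x`:
position 2 is `x + d i`, position 3 is `x + d (i + 1)`, position 4 is `x + d (i + 2)` -/
theorem pass (h : Inv P s) {b : Site} {i : ZMod 6} (he : s.e = (b, i)) (hv : b ∉ s.V)
    (hx : s.U (b + d (i + 1))) (hB : Box P.M (b + d (i + 1))) (t : ℕ)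
    (hb : s.U (b + d (i + 2)) → s.U (b + d (i + 3)) → s.U (b + d (i + 4)) → s.c b ≤ 2)
    (hz : s.c (b + d (i + 1)) + t ≤ min 3 (s.z (b + d (i + 1))))
    (hH : P.H (s.nd b) b ∨ ¬ s.U (b + d (i + 3)))
    (hbig : ¬ Wall s.De (b + d (i + 1) + d i) → ¬ Wall s.De (b + d (i + 1) + d (i + 2)) →
      s.c (b + d (i + 1)) + t + 3 ≤ min 3 (s.z (b + d (i + 1))) ∨
      (s.c (b + d (i + 1)) + t + 2 ≤ min 3 (s.z (b + d (i + 1))) ∧
        (P.Cok (s.nd b) b (b + d (i + 1)) ∨ ¬ s.U (b + d (i + 4))))) :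
    Inv P (s.pass.claim (b + d (i + 1)) t) ∧ (s.pass.claim (b + d (i + 1)) t).g = s.g + 2 + t ∧
      (s.pass.claim (b + d (i + 1)) t).mu = s.mu + 1 := by
  have hc : corner s.e = b + d (i + 1) := by rw [he]; rfl
  have e1 : s.e.1 = b := by rw [he]
  have e2 : s.e.2 = i := by rw [he]
  set x := b + d (i + 1) with hxd
  have hx' : s.U (corner s.e) := hc ▸ hx
  have := Geo.go (b := s.e.1) (i := s.e.2) (h.geo.mark hx'.1) (mem_insert_self _ _)
  have hu : ∀ {u}, s.pass.U u → s.U u ∧ u ≠ x := fun a =>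
    ⟨(St.U_pass.1 a).2, hc ▸ (St.U_pass.1 a).1⟩
  have hcl : ∀ u, u ≠ x → (s.pass.claim x t).c u = s.c u := fun u a => s.pass.c_claim_ne t a
  have hcx : (s.pass.claim x t).c x = s.c x + t := s.pass.c_claim_self x t
  have hjx : (s.pass.claim x t).vj x = i + 4 := by
    show Function.update s.vj (corner s.e) (s.e.2 + 4) x = i + 4
    rw [hc, e2, Function.update_self]
  have hj : ∀ v ∈ s.V, (s.pass.claim x t).vj v = s.vj v := fun v a =>
    Function.update_of_ne (fun e : v = corner s.e => hx'.2 (e ▸ h.vR a)) _ _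
  have hVx : ∀ v ∈ s.V, v ≠ x := fun v a e => hx.2 (e ▸ h.vR a)
  have hRx : ∀ v ∈ s.R, v ≠ x := fun v a e => hx.2 (e ▸ a)
  have mV : ∀ {v}, v ∈ (s.pass.claim x t).V ↔ v = x ∨ v ∈ s.V := fun {v} => by
    rw [← hc]
    exact mem_insert
  have mR : ∀ {v}, v ∈ (s.pass.claim x t).R ↔ v = x ∨ v ∈ s.R := fun {v} => by
    rw [← hc]
    exact mem_insert
  have xb : x + d (i + 4) = b := by
    rw [hxd, add_assoc, show i + 4 = i + 1 + 3 by ring, d_add3, add_zero]
  have bR : b ∈ s.R := e1 ▸ h.geo.right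
  have i1 : i + 4 + 5 = i + 3 := (by decide : ∀ i : ZMod 6, i + 4 + 5 = i + 3) i
  have i2 : i + 4 + 2 = i := (by decide : ∀ i : ZMod 6, i + 4 + 2 = i) i
  have i4 : i + 4 + 4 = i + 2 := (by decide : ∀ i : ZMod 6, i + 4 + 4 = i + 2) i
  refine ⟨{
    geo := this.1
    cz := fun y => ?_
    boxD := h.boxD
    boxR := fun y a => ?_
    node := fun r a b => ?_
    u2 := fun u a => hcl u (hu a).2 ▸ h.u2 u (hu a).1
    u1 := fun u a b => hcl u (hu a).2 ▸ h.u1 u (hu a).1 b
    u0 := fun u a b => hcl u (hu a).2 ▸ h.u0 u (hu a).1 b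
    j0 := fun a k a1 a2 a3 a4 a5 a6 => ?_
    j1 := fun a k a1 a2 a3 a4 a5 a6 => ?_
    rc := fun r a b k a1 a2 a3 a4 => ?_
    nd := fun r a => ?_
    v0 := fun v a => ?_
    vH := fun v a => ?_
    vbig := fun v a b c => ?_ }, ?_, ?_⟩
  · by_cases e : y = x
    · rw [e, hcx]
      exact hz.trans (min_le_right _ _)
    · rw [hcl y e]
      exact h.cz y
  · rcases mR.1 a with rfl | a
    · exact hB
    · exact h.boxR y a
  · have b1 := mV.not.1 b
    exact h.node r ((mR.1 a).resolve_left fun e => b1 (Or.inl e)) fun e => b1 (Or.inr e)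
  · rw [hcl _ (hu a2).2, hcl _ (hu a4).2, hcl a fun e => hx.1 (e ▸ a1)]
    exact h.j0 a k a1 (hu a2).1 (hu a3).1 (hu a4).1 a5 a6
  · rw [hcl _ (hu a2).2, hcl a fun e => hx.1 (e ▸ a1)]
    exact h.j1 a k a1 (hu a2).1 (hu a3).1 (hu a4).1 (hu a5).1 a6
  · have b1 := mV.not.1 b
    have b2 := (mR.1 a).resolve_left fun e => b1 (Or.inl e)
    rw [hcl r (hRx r b2)]
    exact h.rc_mark hx' (fun _ => by rw [e1, e2]; exact hb) b2 (fun e => b1 (Or.inr e)) a1
      (hu a2).1 (hu a3).1 (hu a4).1
  · rcases mR.1 a with rfl | a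
    · exact ⟨s.e.2 - 1, mem_insert.2 (Or.inl (by rw [← hc]; rfl))⟩
    · exact (h.nd r a).imp fun _ b => mem_insert_of_mem b
  · rcases mV.1 a with rfl | a
    · rw [hjx, xb, hcx]
      refine ⟨fun e => hx.2 (e ▸ h.geo.root), mR.2 (Or.inr bR),
        fun e => (mV.1 e).elim (hRx _ bR) hv, ?_, hz.trans (min_le_left _ _)⟩
      refine mem_insert.2 (Or.inl ?_)
      show _ = (corner s.e, s.e.2 - 1)
      rw [hc, e2, (by decide : ∀ i : ZMod 6, i + 4 + 1 = i - 1) i]
    · obtain ⟨a1, a2, a3, a4, a5⟩ := h.v0 v a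
      rw [hj v a, hcl v (hVx v a)]
      exact ⟨a1, mR.2 (Or.inr a2), fun e => (mV.1 e).elim (hRx _ a2) a3, mem_insert_of_mem a4, a5⟩
  · rcases mV.1 a with rfl | a
    · rw [hjx, xb, i1]
      exact hH.imp id fun b c => b (hu c).1
    · rw [hj v a]
      exact (h.vH v a).imp id fun b c => b (hu c).1
  · rcases mV.1 a with rfl | a
    · rw [hjx, i2] at b
      rw [hjx, i4] at c
      rw [hjx, xb, hcx]
      exact (hbig b c).imp id fun e => ⟨e.1, e.2.imp id fun b c => b (hu c).1⟩
    · rw [hj v a] at b c ⊢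
      rw [hcl v (hVx v a)]
      exact (h.vbig v a b c).imp id fun e => ⟨e.1, e.2.imp id fun b c => b (hu c).1⟩
  · rw [St.g_claim]
    simp only [St.g, St.pass, led]
    rw [this.2]
    ring
  · simp only [St.mu, St.pass, St.claim, card_insert_of_notMem h.geo.new]
    ring

/-- common part of the two late absorptions; `t` tokens of the reserve are claimed -/
theorem retro (h : Inv P s) {x : Site} (hx : x ∈ s.V) {O' : Finset Dart}
    (hg : Geo (insert x s.De) (s.R.erase x) O' (x + d (s.vj x), s.vj x + 3))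
    (hO : ∀ f ∈ insert s.e s.O, f.1 ≠ x → f ∈ O') (t : ℕ) (hz : s.c x + t ≤ min 3 (s.z x)) :
    Inv P ((s.retro x O').claim x t) := by
  have hs : s.De ⊆ (s.retro x O').De := subset_insert _ _
  have hu : ∀ {u}, (s.retro x O').U u → s.U u := fun a => (St.U_retro (h.vR hx)).1 a
  have h3 := (h.v0 x hx).2.2.2.2
  have key : Inv P (s.retro x O') := by
    refine { h with
      geo := hg
      boxD := fun y a => ?_
      boxR := fun y a => h.boxR y (mem_of_mem_erase a)
      node := fun r a b => h.node r (mem_of_mem_erase a) fun e =>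
        b (mem_erase.2 ⟨(mem_erase.1 a).1, e⟩)
      u2 := fun u a => h.u2 u (hu a)
      u1 := fun u a b => h.u1 u (hu a) (b.anti hs)
      u0 := fun u a b => h.u0 u (hu a) (b.anti hs)
      j0 := fun a k a1 a2 a3 a4 a5 a6 => ?_
      j1 := fun a k a1 a2 a3 a4 a5 a6 => ?_
      rc := fun r a b k a1 a2 a3 a4 => h.rc r (mem_of_mem_erase a) (fun e =>
        b (mem_erase.2 ⟨(mem_erase.1 a).1, e⟩)) k (mem_of_mem_erase a1) (hu a2) (hu a3) (hu a4)
      nd := fun r a => (h.nd r (mem_of_mem_erase a)).imp fun _ b =>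
        mem_insert_of_mem (hO _ b (mem_erase.1 a).1)
      v0 := fun v a => ?_
      vH := fun v a => (h.vH v (mem_of_mem_erase a)).imp id fun b c => b (hu c)
      vbig := fun v a b c => ?_ }
    · rcases mem_insert.1 a with rfl | a
      · exact h.boxR _ (h.vR hx)
      · exact h.boxD y a
    · rcases wall_insert.1 a1 with rfl | a1
      · have b2 := h.u1 _ (hu a2) (a5.anti hs)
        have b3 := h.u1 _ (hu a4) (a6.anti hs)
        exact (add_le_add (add_le_add h3 b3) b2).trans (by norm_num)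
      · exact h.j0 a k a1 (hu a2) (hu a3) (hu a4) (a5.anti hs) (a6.anti hs)
    · rcases wall_insert.1 a1 with rfl | a1
      · have b2 := h.u1 _ (hu a2) (a6.anti hs)
        exact (add_le_add h3 b2).trans (by norm_num)
      · exact h.j1 a k a1 (hu a2) (hu a3) (hu a4) (hu a5) (a6.anti hs)
    · obtain ⟨a1, a2, a3, a4, a5⟩ := h.v0 v (mem_of_mem_erase a)
      exact ⟨a1, mem_erase.2 ⟨fun e => a3 (e ▸ hx), a2⟩, fun e => a3 (mem_of_mem_erase e),
        mem_insert_of_mem (hO _ a4 (mem_erase.1 a).1), a5⟩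
    · exact (h.vbig v (mem_of_mem_erase a) (fun e => b (e.mono hs))
        fun e => c (e.mono hs)).imp id fun e => ⟨e.1, e.2.imp id fun b c => b (hu c)⟩
  exact key.claimW3 (wall_insert.2 (Or.inl rfl)) t (hz.trans (min_le_right _ _))
    (hz.trans (min_le_left _ _))

theorem mu_retro (h : Inv P s) {x : Site} (hx : x ∈ s.V) {O' : Finset Dart}
    (hc : s.O.card < O'.card + 6) (t : ℕ) : s.mu < ((s.retro x O').claim x t).mu := by
  have : x ∉ s.De := fun a => h.geo.free _ (h.vR hx) (Or.inr a)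
  simp only [St.mu, St.retro, St.claim, card_insert_of_notMem this]
  omega

/-- one turn backwards at a new wall site -/
theorem back_new {De R : Finset Site} {O : Finset Dart} {e : Dart} {y : Site} {i : ZMod 6}
    (hg : Geo De R O e) (hf : (y, i + 1) ∈ O) (hw : Wall De (y + d i))
    (h0 : (y, i + 1) ≠ e0) : (y, i) ∈ O := by
  have := hg.back (mem_insert_of_mem hf)
  rw [add_sub_cancel_right] at this
  exact this.elim (fun a => a.2.resolve_right h0) fun a => absurd hw (hg.free _ a.1)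

/-- arrival at the virtual site `x` from position 2 -/
theorem retro2 (h : Inv P s) {x : Site} (hx : x ∈ s.V)
    (he : s.e = (x + d (s.vj x + 2), s.vj x + 4))
    (h4 : ¬ (x + d (s.vj x + 4) ∈ s.R ∧ Wall s.De (x + d (s.vj x + 5)))) (t : ℕ)
    (hz : s.c x + t ≤ min 3 (s.z x)) : ∃ O', Inv P ((s.retro x O').claim x t) ∧
      s.g + (if Wall s.De (x + d (s.vj x + 4)) then 2 else 0) + t ≤
        ((s.retro x O').claim x t).g ∧ s.mu < ((s.retro x O').claim x t).mu ∧
      ∀ f ∈ s.O, f.1 ≠ x → f ∈ O' := by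
  obtain ⟨a1, a2, -, a4, -⟩ := h.v0 x hx
  set j := s.vj x with hj
  have hg := he ▸ h.geo
  have a5 : (x, j + 1) ∈ s.O := (mem_insert.1 a4).resolve_left fun e =>
    add_d_ne _ _ (Prod.ext_iff.1 (e.trans he)).1.symm
  obtain ⟨O', b1, b2, b3, b4, -⟩ := hg.retro2 (h.vR hx) a1 a5 a2 h4
  have xw := h.geo.free _ (h.vR hx)
  refine ⟨O', h.retro hx b1 (fun f hf hn => ?_) t hz, ?_, h.mu_retro hx b3 t, b4⟩
  · rcases mem_insert.1 hf with rfl | hf
    · have yR : x + d (j + 2) ∈ s.R := hg.right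
      have c1 : (x + d (j + 2), j + 5 + 1) ∈ O' := by
        rcases hg.forth a5 with c | c
        · exact absurd (by rw [show j + 2 = j + 1 + 1 by ring]; exact c.1) (hg.free _ yR)
        · rw [show j + 1 + 1 = j + 2 by ring, add_sub_cancel_right] at c
          rw [(by decide : ∀ i : ZMod 6, i + 5 + 1 = i) j]
          exact b4 _ ((mem_insert.1 c.2).resolve_left fun e =>
            (by decide : ∀ i : ZMod 6, i ≠ i + 4) j (Prod.ext_iff.1 e).2) (add_d_ne _ _)
      have e5 : x + d (j + 2) + d (j + 5) = x := by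
        rw [add_assoc, show j + 5 = j + 2 + 3 by ring, d_add3, add_zero]
      have c2 : (x + d (j + 2), j + 4 + 1) ∈ O' := by
        rw [show j + 4 + 1 = j + 5 by ring]
        refine back_new b1 c1 (by rw [e5]; exact wall_insert.2 (Or.inl rfl)) fun e => ?_
        obtain ⟨e1, e2⟩ := Prod.ext_iff.1 e
        have e3 : j + 5 = 0 := (by decide : ∀ i : ZMod 6, i + 1 = 1 → i = 0) _ e2
        refine xw (Or.inl ?_)
        rw [← e5, e3, show x + d (j + 2) = (0, 0) from e1]
        decide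
      rw [he]
      refine back_new b1 c2 (hg.wall.mono (subset_insert _ _)) fun e => xw ?_
      obtain ⟨e1, e2⟩ := Prod.ext_iff.1 e
      have e3 : j + 5 = 1 := by rw [show j + 5 = j + 4 + 1 by ring]; exact e2
      rw [← e5, e3, show x + d (j + 2) = (0, 0) from e1]
      exact Or.inl (by decide)
    · exact b4 f hf hn
  · rw [St.g_claim]
    simp only [St.g, St.retro]
    omega

/-- arrival at the virtual site `x` from position 3 -/
theorem retro3 (h : Inv P s) {x : Site} (hx : x ∈ s.V)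
    (he : s.e = (x + d (s.vj x + 3), s.vj x + 5)) (t : ℕ)
    (hz : s.c x + t ≤ min 3 (s.z x)) : ∃ O', Inv P ((s.retro x O').claim x t) ∧
      s.g + 2 + t ≤ ((s.retro x O').claim x t).g ∧ s.mu < ((s.retro x O').claim x t).mu ∧
      ∀ f ∈ s.O, f.1 ≠ x → f ∈ O' := by
  obtain ⟨a1, a2, -, a4, -⟩ := h.v0 x hx
  set j := s.vj x with hj
  have hg := he ▸ h.geo
  have a5 : (x, j + 1) ∈ s.O := (mem_insert.1 a4).resolve_left fun e =>
    add_d_ne _ _ (Prod.ext_iff.1 (e.trans he)).1.symm
  obtain ⟨O', b1, b2, b3, b4, -⟩ := hg.retro3 (h.vR hx) a1 a5 a2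
  have xw := h.geo.free _ (h.vR hx)
  have wx : Wall (insert x s.De) x := wall_insert.2 (Or.inl rfl)
  refine ⟨O', h.retro hx b1 (fun f hf hn => ?_) t hz, ?_, h.mu_retro hx b3 t, b4⟩
  · rcases mem_insert.1 hf with rfl | hf
    · have wR : x + d (j + 3) ∈ s.R := hg.right
      have e6 : x + d (j + 3) + d j = x := by
        rw [add_assoc, add_comm (d (j + 3)), d_add3, add_zero]
      have c1 : (x + d (j + 3), j + 5 + 1) ∈ O' := by
        rw [(by decide : ∀ i : ZMod 6, i + 5 + 1 = i) j]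
        rcases hg.forth a5 with c | c
        · have c2 : (x, j + 1 + 1) ∈ s.O := (mem_insert.1 c.2).resolve_left fun e =>
            add_d_ne _ _ (Prod.ext_iff.1 e).1.symm
          rcases hg.forth c2 with c3 | c3
          · exact absurd (by rw [show j + 3 = j + 1 + 1 + 1 by ring]; exact c3.1) (hg.free _ wR)
          · rw [show j + 1 + 1 + 1 = j + 3 by ring, add_sub_cancel_right] at c3
            refine back_new b1 (b4 _ ((mem_insert.1 c3.2).resolve_left fun e =>
              (by decide : ∀ i : ZMod 6, i + 1 ≠ i + 5) j (Prod.ext_iff.1 e).2) (add_d_ne _ _))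
              (by rw [e6]; exact wx) fun e => xw (Or.inl ?_)
            obtain ⟨e1, e2⟩ := Prod.ext_iff.1 e
            have e3 : j = 0 := (by decide : ∀ i : ZMod 6, i + 1 = 1 → i = 0) _ e2
            rw [← e6, show x + d (j + 3) = (0, 0) from e1, e3]
            decide
        · rw [show j + 1 + 1 = j + 2 by ring, add_sub_cancel_right] at c
          have e5 : x + d (j + 2) + d (j + 5) = x := by
            rw [add_assoc, show j + 5 = j + 2 + 3 by ring, d_add3, add_zero]
          have c1 : (x + d (j + 2), j + 5 + 1) ∈ O' := by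
            rw [(by decide : ∀ i : ZMod 6, i + 5 + 1 = i) j]
            exact b4 _ ((mem_insert.1 c.2).resolve_left fun e =>
              (by decide : ∀ i : ZMod 6, i ≠ i + 5) j (Prod.ext_iff.1 e).2) (add_d_ne _ _)
          have c2 : (x + d (j + 2), j + 4 + 1) ∈ O' := by
            rw [show j + 4 + 1 = j + 5 by ring]
            refine back_new b1 c1 (by rw [e5]; exact wx) fun e => ?_
            obtain ⟨e1, e2⟩ := Prod.ext_iff.1 e
            have e3 : j + 5 = 0 := (by decide : ∀ i : ZMod 6, i + 1 = 1 → i = 0) _ e2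
            refine xw (Or.inl ?_)
            rw [← e5, e3, show x + d (j + 2) = (0, 0) from e1]
            decide
          have c3 := b1.back (mem_insert_of_mem c2)
          have e7 : x + d (j + 2) + d (j + 4) = x + d (j + 3) := by
            rw [add_assoc, show j + 4 = j + 2 + 2 by ring, d_add]
            congr 2
            ring
          rw [add_sub_cancel_right, e7, (by decide : ∀ i : ZMod 6, i + 4 + 1 + 1 = i) j] at c3
          exact (c3.resolve_left fun a => b1.free _ (mem_erase.2 ⟨add_d_ne _ _, wR⟩) a.1).2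
      rw [he]
      refine back_new b1 c1 (hg.wall.mono (subset_insert _ _)) fun e => xw ?_
      obtain ⟨e1, e2⟩ := Prod.ext_iff.1 e
      have e3 : j = 1 := (by decide : ∀ i : ZMod 6, i + 5 + 1 = 1 → i = 1) _ e2
      rw [← e6, show x + d (j + 3) = (0, 0) from e1, e3]
      exact Or.inl (by decide)
    · exact b4 f hf hn
  · rw [St.g_claim]
    simp only [St.g, St.retro]
    omega

/-- the dart that entered a virtual site is walked -/
theorem v_entry (h : Inv P s) {x : Site} (hx : x ∈ s.V) : (x + d (s.vj x), s.vj x + 2) ∈ s.O := by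
  obtain ⟨a1, a2, -, a4, -⟩ := h.v0 x hx
  exact ((h.geo.back' a1 a4).resolve_left fun a => h.geo.free _ a2 a.1).2

/-- the head arrives at a virtual site from position 2, 3 or 4 -/
theorem v_arrive (h : Inv P s) (hx : corner s.e ∈ s.V) :
    s.e = (corner s.e + d (s.vj (corner s.e) + 2), s.vj (corner s.e) + 4) ∨
    s.e = (corner s.e + d (s.vj (corner s.e) + 3), s.vj (corner s.e) + 5) ∨
    s.e = (corner s.e + d (s.vj (corner s.e) + 4), s.vj (corner s.e)) := by
  have a0 := h.v_entry hx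
  obtain ⟨-, a2, -, a4, -⟩ := h.v0 _ hx
  have a5 := h.wall_of a4
  have e1 : corner s.e + d (s.e.2 + 4) = s.e.1 := by
    rw [corner, add_assoc, show s.e.2 + 4 = s.e.2 + 1 + 3 by ring, d_add3, add_zero]
  have e2 : corner s.e + d (s.e.2 + 5) = s.e.1 + d s.e.2 := by
    rw [corner, add_assoc, show s.e.2 + 5 = s.e.2 + 1 + 4 by ring, d_add4, add_sub_cancel_right]
  have key : ∀ k : ZMod 6, s.e.2 + 4 = k → s.e = (corner s.e + d k, k + 2) := fun k a => by
    rw [← a, e1, (by decide : ∀ i : ZMod 6, i + 4 + 2 = i) s.e.2]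
  generalize s.vj (corner s.e) = j at *
  rcases six_cases j (s.e.2 + 4) with a | a | a | a | a | a
  · exact absurd (key _ a ▸ a0) h.geo.new
  · exact absurd (by rw [← e1, a]; exact a5) (h.geo.free _ h.geo.right)
  · exact Or.inl (by rw [show j + 4 = j + 2 + 2 by ring]; exact key _ a)
  · exact Or.inr (Or.inl (by rw [show j + 5 = j + 3 + 2 by ring]; exact key _ a))
  · refine Or.inr (Or.inr ?_)
    have := key _ a
    rwa [(by decide : ∀ i : ZMod 6, i + 4 + 2 = i) j] at this
  · refine absurd ?_ (h.geo.free _ a2)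
    rw [(by decide : ∀ i j : ZMod 6, i + 4 = j + 5 → j = i + 5) _ _ a, e2]
    exact h.geo.wall

/-- the corner `x` is absorbed, `t` of its tokens and one token of the left site are claimed -/
theorem absorbA (h : Inv P s) {b : Site} {i : ZMod 6} (he : s.e = (b, i))
    (hx : s.U (b + d (i + 1))) (hB : Box P.M (b + d (i + 1))) (t : ℕ)
    (hz : s.c (b + d (i + 1)) + t ≤ s.z (b + d (i + 1))) (h4 : s.c (b + d (i + 1)) + t ≤ 4)
    (ha : s.c (b + d i) + 1 ≤ s.z (b + d i)) :
    Inv P (((s.absorb (b + d (i + 1))).claim (b + d (i + 1)) t).claim (b + d i) 1) := by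
  have hm : (b, i) ∈ insert s.e s.O := he ▸ mem_insert_self _ _
  have hw := h.wall_of hm
  have e2 : b + d i + d (i + 2) = b + d (i + 1) := by rw [add_assoc, d_add]
  have e3 : b + d i + d (i + 3) = b := by rw [add_assoc, d_add3, add_zero]
  have e4 : b + d i + d (i + 4) = b + d (i + 5) := by
    rw [add_assoc, d_add4, (by decide : ∀ i : ZMod 6, i - 1 = i + 5) i]
  have e1 : b + d i + d (i + 1) = b + d (i + 1) + d i := add_right_comm _ _ _
  set x := b + d (i + 1) with hxd
  have hcl : ∀ u, u ≠ x → ((s.absorb x).claim x t).c u = s.c u := fun u a =>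
    (s.absorb x).c_claim_ne t a
  have ax : b + d i ≠ x := fun e => hx.1 (e ▸ hw)
  have n2 : ¬ (s.absorb x).U (b + d i + d (i + 2)) := fun a => (St.U_absorb.1 a).1 e2
  have n3 : ¬ (s.absorb x).U (b + d i + d (i + 3)) := fun a =>
    (St.U_absorb.1 a).2.2 (by rw [e3]; exact (h.geo.ok _ hm).2)
  have n4 : ¬ (s.absorb x).U (b + d i + d (i + 4)) := fun a =>
    h.back_dec hm (e4 ▸ (St.U_absorb.1 a).2)
  refine (h.absorbC hx hB t hz h4).claimW (hw.mono (subset_insert _ _)) 1 (by rw [hcl _ ax]; exact ha)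
    (fun k a1 a2 a3 a4 a5 => ?_) fun k a1 a2 a3 a4 _ => ?_
  · rcases six_cases i k with rfl | rfl | rfl | rfl | rfl | rfl
    · exact absurd a3 n2
    · exact absurd (by rwa [show i + 1 + 1 = i + 2 by ring] at a2) n2
    · exact absurd a1 n2
    · exact absurd a1 n3
    · exact absurd a1 n4
    · have b1 := St.U_absorb.1 a1
      have b3 := St.U_absorb.1 a3
      have b4 := h.j1 _ _ hw b1.2 (St.U_absorb.1 a2).2 b3.2
        (by rw [(by decide : ∀ i : ZMod 6, i + 5 + 3 = i + 2) i, e2]; exact hx)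
        (a4.anti (subset_insert _ _))
      rw [hcl _ ax, hcl _ b1.1, hcl _ b3.1]
      rw [(by decide : ∀ i : ZMod 6, i + 5 + 2 = i + 1) i, e1] at b3 a5 ⊢
      have := h.clean hx b3.2 a5
      omega
  · rcases six_cases i k with rfl | rfl | rfl | rfl | rfl | rfl
    · exact absurd a3 n2
    · exact absurd (by rwa [show i + 1 + 1 = i + 2 by ring] at a2) n2
    · exact absurd a1 n2
    · exact absurd a1 n3
    · exact absurd a1 n4
    · exact absurd (by rwa [(by decide : ∀ i : ZMod 6, i + 5 + 3 = i + 2) i] at a4) n2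

/-- the site `x = a + d (k + 1)` next to the wall site `a` is absorbed with at most three claims,
one token of `o = a + d k` is borrowed -/
theorem absorbB (h : Inv P s) {a : Site} {k : ZMod 6} (hw : Wall s.De a)
    (hx : s.U (a + d (k + 1))) (hB : Box P.M (a + d (k + 1))) (t : ℕ)
    (hz : s.c (a + d (k + 1)) + t ≤ s.z (a + d (k + 1))) (h3 : s.c (a + d (k + 1)) + t ≤ 3)
    (ho : s.U (a + d k)) (h1 : s.c (a + d k) ≤ 1) (hoz : s.c (a + d k) + 1 ≤ s.z (a + d k)) :
    Inv P (((s.absorb (a + d (k + 1))).claim (a + d (k + 1)) t).claim (a + d k) 1) := by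
  have e2 : a + d k + d (k + 2) = a + d (k + 1) := by rw [add_assoc, d_add]
  have e3 : a + d k + d (k + 2 + 1) = a := by
    rw [add_assoc, show k + 2 + 1 = k + 3 by ring, d_add3, add_zero]
  have e5 : a + d (k + 1) + d (k + 5) = a + d k := by
    rw [add_assoc, show k + 5 = k + 1 + 4 by ring, d_add4, add_sub_cancel_right]
  set x := a + d (k + 1) with hxd
  have hcl : ∀ u, u ≠ x → ((s.absorb x).claim x t).c u = s.c u := fun u a =>
    (s.absorb x).c_claim_ne t a
  have ox : a + d k ≠ x := fun e => (by decide : ∀ i : ZMod 6, i ≠ i + 1) k (add_d_inj e)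
  refine (h.absorbC hx hB t hz (by omega)).borrow (k := k + 2) (St.U_absorb.2 ⟨ox, ho⟩)
    (by rw [e2]; exact wall_insert.2 (Or.inl rfl)) (by rw [e3]; exact hw.mono (subset_insert _ _))
    (by rw [hcl _ ox]; exact hoz) (by rw [hcl _ ox]; exact h1) fun b => ⟨?_, ?_, ?_⟩
  · rw [hcl _ ox, ← e5]
    exact h.clean hx (e5 ▸ ho) (e5 ▸ b)
  · rw [e2]
    exact ((s.absorb x).c_claim_self x t).trans_le h3
  · rw [e3]
    intro a1 a2 a3
    have b1 := St.U_absorb.1 a1
    rw [hcl _ b1.1, hcl a fun e => hx.1 (e ▸ hw)]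
    exact h.j1 _ _ hw b1.2
      (by rw [show k + 2 + 2 + 1 = k + 2 + 3 by ring]; exact (St.U_absorb.1 a2).2)
      (by rw [(by decide : ∀ i : ZMod 6, i + 2 + 2 + 2 = i) k]; exact ho)
      (by rw [(by decide : ∀ i : ZMod 6, i + 2 + 2 + 3 = i + 1) k]; exact hx)
      (a3.anti (subset_insert _ _))

end Inv

/-- the first state -/
def St.init (Z : Multiset Site) (n : ν) : St ν :=
  ⟨{(-1, 1)}, {(0, 0)}, ∅, ∅, e0, Z, 0, fun _ => n, fun _ => 0⟩

theorem Inv.init {Z : Multiset Site} {n : ν} (hM : 1 ≤ P.M) (hn : P.ok Z (0, 0) n) :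
    Inv P (St.init Z n) ∧ (St.init Z n).g = 2 - Z.card := by
  have hc : ∀ y, (St.init Z n).c y = 0 := fun y => Multiset.count_zero _
  refine ⟨⟨Geo.init, fun y => by simp [hc], fun y a => ?_, fun y a => ?_, fun r a _ => ?_,
    by simp [hc], by simp [hc], by simp [hc], by simp [hc], by simp [hc], by simp [hc],
    fun r a => ⟨1, ?_⟩, fun v a => absurd a (notMem_empty _), fun v a => absurd a (notMem_empty _),
    fun v a => absurd a (notMem_empty _)⟩, ?_⟩
  · rw [mem_singleton.1 a]
    exact ⟨by simpa using hM, by simpa using hM⟩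
  · rw [mem_singleton.1 a]
    exact ⟨by simp; omega, by simp; omega⟩
  · rw [mem_singleton.1 a]
    exact hn
  · rw [mem_singleton.1 a]
    exact mem_insert_self _ _
  · simp only [St.g, St.init, led_init, Multiset.card_zero]
    omega

end Pool.Agent.MP_6bef34_co.H28
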